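import Mathlib

/-!
# The choice of the parameters of the division, with a constant
-/

set_option autoImplicit false

namespace Pool.Agent.U514.MM

/-- The version of `num` with a factor `K`. -/
theorem numK {m A s R q₀ K : ℕ} (hm : 1 ≤ m) (hA : 1 ≤ A) (hK : 1 ≤ K) (hs : m ^ 2 ≤ s)
    (hR : m ^ 2 ≤ R) (hq₀ : q₀ ≤ 5000 * A)
    (H : ∀ q w : ℕ, q₀ ≤ q → 0 < q → 0 < w → ∃ ℓ : ℕ,
      m ^ 4 ≤ K * (ℓ * (w ^ 2 + 25000 * m ^ 2 * q)) ∧
      ℓ * (q ^ 2 * w) ≤ 10 * (w * (A * s) + q ^ 2 * R) + q ^ 2 * w) :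
    m ^ 8 ≤ 2 ^ 47 * K ^ 3 * (A * s * R ^ 2) := by
  obtain ⟨t, ht⟩ : ∃ t, t = m ^ 3 / (9540 * (K * R)) := ⟨_, rfl⟩
  have hm2 : 1 ≤ m ^ 2 := Nat.one_le_pow _ _ hm
  have hR0 : 0 < 9540 * (K * R) := by
    have : 0 < K * R := Nat.mul_pos (by omega) (by omega)
    omega
  have ht1 : t * (9540 * (K * R)) ≤ m ^ 3 := by rw [ht]; exact Nat.div_mul_le_self _ _
  have ht2 : m ^ 3 < (t + 1) * (9540 * (K * R)) := by
    rw [ht]
    exact (Nat.div_lt_iff_lt_mul hR0).1 (Nat.lt_succ_iff.2 (le_refl _))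
  have hmR : (1 : ℝ) ≤ m := by exact_mod_cast hm
  have hAR : (1 : ℝ) ≤ A := by exact_mod_cast hA
  have hKR : (1 : ℝ) ≤ K := by exact_mod_cast hK
  have hK0 : (0 : ℝ) < K := by linarith
  have hsR : (m : ℝ) ^ 2 ≤ s := by exact_mod_cast hs
  have hRR : (m : ℝ) ^ 2 ≤ R := by exact_mod_cast hR
  have ht1R : (t : ℝ) * (9540 * (K * R)) ≤ (m : ℝ) ^ 3 := by exact_mod_cast ht1
  have ht2R : (m : ℝ) ^ 3 ≤ ((t : ℝ) + 1) * (9540 * (K * R)) := by exact_mod_cast ht2.le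
  have hR1 : (0 : ℝ) ≤ R := by positivity
  have hs1 : (0 : ℝ) ≤ s := by positivity
  have ht0 : (0 : ℝ) ≤ t := by positivity
  have goal : (m : ℝ) ^ 8 ≤ 2 ^ 47 * K ^ 3 * (A * s * R ^ 2) := by
    by_cases h : 5000 * A ≤ t ^ 2
    · have ht71 : 70 ≤ t := by
        by_contra hcon
        push Not at hcon
        have : t ^ 2 ≤ 69 ^ 2 := Nat.pow_le_pow_left (by omega) 2
        omega
      have ht70 : (70 : ℝ) ≤ t := by exact_mod_cast ht71
      have htp : (0 : ℝ) < t := by linarith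
      obtain ⟨ℓ, h1, h2⟩ := H (t ^ 2) (159 * m * t) (by omega) (by positivity) (by positivity)
      have h1R : (m : ℝ) ^ 4 ≤ K * (ℓ * ((159 * m * t) ^ 2 + 25000 * m ^ 2 * t ^ 2)) := by
        exact_mod_cast h1
      have h2R : (ℓ : ℝ) * ((t ^ 2) ^ 2 * (159 * m * t)) ≤
          10 * ((159 * m * t) * (A * s) + (t ^ 2) ^ 2 * R) + (t ^ 2) ^ 2 * (159 * m * t) := by
        exact_mod_cast h2
      have a1 : (m : ℝ) ^ 2 ≤ 50281 * K * ℓ * t ^ 2 := by
        have : (m : ℝ) ^ 2 * m ^ 2 ≤ m ^ 2 * (50281 * K * ℓ * t ^ 2) := by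
          calc (m : ℝ) ^ 2 * m ^ 2 = m ^ 4 := by ring
            _ ≤ _ := h1R
            _ = _ := by ring
        exact le_of_mul_le_mul_left this (by positivity)
      have a2 : 159 * (m : ℝ) ^ 3 * t ^ 3 ≤
          50281 * K * (ℓ * ((t ^ 2) ^ 2 * (159 * m * t))) := by
        calc 159 * (m : ℝ) ^ 3 * t ^ 3 = m ^ 2 * (159 * m * t ^ 3) := by ring
          _ ≤ (50281 * (K : ℝ) * ℓ * t ^ 2) * (159 * m * t ^ 3) :=
              mul_le_mul_of_nonneg_right a1 (by positivity)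
          _ = _ := by ring
      have a4 : 159 * (m : ℝ) ^ 3 * t ^ 2 ≤
          50281 * K * (1590 * m * (A * s) + 10 * t ^ 3 * R + 159 * m * t ^ 4) := by
        have : t * (159 * (m : ℝ) ^ 3 * t ^ 2) ≤
            t * (50281 * K * (1590 * m * (A * s) + 10 * t ^ 3 * R + 159 * m * t ^ 4)) := by
          calc t * (159 * (m : ℝ) ^ 3 * t ^ 2) = 159 * (m : ℝ) ^ 3 * t ^ 3 := by ring
            _ ≤ _ := a2
            _ ≤ _ := mul_le_mul_of_nonneg_left h2R (by positivity)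
            _ = _ := by ring
        exact le_of_mul_le_mul_left this htp
      have a7 : 9540 * (K * t : ℝ) ≤ m := by
        have : (m : ℝ) ^ 2 * (9540 * (K * t)) ≤ m ^ 2 * m := by
          calc (m : ℝ) ^ 2 * (9540 * (K * t)) ≤ (R : ℝ) * (9540 * (K * t)) :=
                mul_le_mul_of_nonneg_right hRR (by positivity)
            _ = (t : ℝ) * (9540 * (K * R)) := by ring
            _ ≤ (m : ℝ) ^ 3 := ht1R
            _ = _ := by ring
        exact le_of_mul_le_mul_left this (by positivity)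
      have a6 : K * (10 * (t : ℝ) ^ 3 * R) ≤ 10 / 9540 * (m ^ 3 * t ^ 2) := by
        calc K * (10 * (t : ℝ) ^ 3 * R) = 10 / 9540 * (t * (9540 * (K * R)) * t ^ 2) := by ring
          _ ≤ 10 / 9540 * ((m : ℝ) ^ 3 * t ^ 2) := by gcongr
      have a8 : K * (159 * (m : ℝ) * t ^ 4) ≤ 159 / 9540 ^ 2 * (m ^ 3 * t ^ 2) := by
        have h5 : (K * t : ℝ) * (1 * t) ≤ (K * t) * (K * t) := by
          apply mul_le_mul_of_nonneg_left _ (by positivity)
          exact mul_le_mul_of_nonneg_right hKR ht0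
        calc K * (159 * (m : ℝ) * t ^ 4) = 159 * (m * t ^ 2) * ((K * t) * (1 * t)) := by ring
          _ ≤ 159 * ((m : ℝ) * t ^ 2) * ((K * t) * (K * t)) :=
              mul_le_mul_of_nonneg_left h5 (by positivity)
          _ = 159 / 9540 ^ 2 * ((m : ℝ) * t ^ 2 * (9540 * (K * t)) ^ 2) := by ring
          _ ≤ 159 / 9540 ^ 2 * ((m : ℝ) * t ^ 2 * m ^ 2) := by gcongr
          _ = _ := by ring
      have a9 : (m : ℝ) ^ 2 * t ^ 2 ≤ 755000 * K * (A * s) := by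
        have h3 : 106 * ((m : ℝ) ^ 3 * t ^ 2) ≤ 79946790 * (K * (m * (A * s))) := by
          have h4 : (0 : ℝ) ≤ m ^ 3 * t ^ 2 := by positivity
          linarith
        have h5 : (m : ℝ) * (m ^ 2 * t ^ 2) ≤ m * (755000 * K * (A * s)) := by
          have h6 : (0 : ℝ) ≤ K * (m * (A * s)) := by positivity
          linarith
        exact le_of_mul_le_mul_left h5 (by linarith)
      have b1 : (m : ℝ) ^ 3 ≤ 9676.29 * (K * R * t) := by
        have h3 : (t : ℝ) + 1 ≤ 71 / 70 * t := by linarith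
        have h4 : (0 : ℝ) ≤ K * R * t := by positivity
        calc (m : ℝ) ^ 3 ≤ (t + 1) * (9540 * (K * R)) := ht2R
          _ ≤ 71 / 70 * (t : ℝ) * (9540 * (K * R)) := mul_le_mul_of_nonneg_right h3 (by positivity)
          _ ≤ _ := by nlinarith
      calc (m : ℝ) ^ 8 = m ^ 2 * (m ^ 3) ^ 2 := by ring
        _ ≤ (m : ℝ) ^ 2 * (9676.29 * (K * R * t)) ^ 2 := by gcongr
        _ = 9676.29 ^ 2 * (K : ℝ) ^ 2 * (R : ℝ) ^ 2 * (m ^ 2 * t ^ 2) := by ring
        _ ≤ 9676.29 ^ 2 * (K : ℝ) ^ 2 * (R : ℝ) ^ 2 * (755000 * K * (A * s)) := by gcongr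
        _ = (9676.29 ^ 2 * 755000) * ((K : ℝ) ^ 3 * (A * s * R ^ 2)) := by ring
        _ ≤ 2 ^ 47 * ((K : ℝ) ^ 3 * (A * s * R ^ 2)) := by
            apply mul_le_mul_of_nonneg_right _ (by positivity)
            norm_num
        _ = _ := by ring
    · push Not at h
      have h1 : (t : ℝ) ^ 2 ≤ 5000 * A := by exact_mod_cast h.le
      have h2 : ((t : ℝ) + 1) ^ 2 ≤ 10002 * A := by nlinarith [sq_nonneg ((t : ℝ) - 1)]
      have h3 : ((m : ℝ) ^ 3) ^ 2 ≤ (((t : ℝ) + 1) * (9540 * (K * R))) ^ 2 :=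
        pow_le_pow_left₀ (by positivity) ht2R 2
      have h4 : (K : ℝ) ^ 2 ≤ K ^ 3 := pow_le_pow_right₀ hKR (by norm_num)
      calc (m : ℝ) ^ 8 = m ^ 2 * (m ^ 3) ^ 2 := by ring
        _ ≤ (s : ℝ) * (((t : ℝ) + 1) * (9540 * (K * R))) ^ 2 := by gcongr
        _ = (s : ℝ) * ((t + 1) ^ 2 * (9540 ^ 2 * (K ^ 2 * R ^ 2))) := by ring
        _ ≤ (s : ℝ) * (10002 * A * (9540 ^ 2 * (K ^ 3 * R ^ 2))) := by gcongr
        _ = (10002 * 9540 ^ 2) * ((K : ℝ) ^ 3 * (A * s * R ^ 2)) := by ring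
        _ ≤ 2 ^ 47 * ((K : ℝ) ^ 3 * (A * s * R ^ 2)) := by
            apply mul_le_mul_of_nonneg_right _ (by positivity)
            norm_num
        _ = _ := by ring
  exact_mod_cast goal

end Pool.Agent.U514.MM
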