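import Mathlib
import Pool.Agent.W896.MO.MmMain
import Pool.Agent.U514.MU.Mv
import Pool.Agent.U514.MM.Num

/-!
# Products of two matrices over a finite field by random circuits: one piece
-/

set_option autoImplicit false

open Finset

namespace Pool.Agent.U514.MM

open Pool.Agent.Y631.Tr
open Pool.Agent.W896.MO

section side

variable {F : Type} {n : ℕ}

/-- the pair with the given parts -/
def mk (b : Bool) (M z : Mat F n) : Mat F n × Mat F n := if b = true then (M, z) else (z, M)

theorem part_mk (b : Bool) (M z : Mat F n) : part b (mk b M z) = z := by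
  cases b <;> simp [part, mk]

theorem part_mk' (b : Bool) (M z : Mat F n) : part (!b) (mk b M z) = M := by
  cases b <;> simp [part, mk]

theorem part_ext (b : Bool) {y z : Mat F n × Mat F n} (h1 : part b y = part b z)
    (h2 : part (!b) y = part (!b) z) : y = z := by
  cases b
  · simp only [part, Bool.false_eq_true, if_false, Bool.not_false, if_true] at h1 h2
    exact Prod.ext h1 h2
  · simp only [part, Bool.false_eq_true, if_false, Bool.not_true, if_true] at h1 h2
    exact Prod.ext h2 h1

/-- the vectors and coordinates of an entry of the matrix `b` -/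
theorem ix_surj (b : Bool) (i : Bool × Fin n × Fin n) (h : i.1 = b) : ∃ v k, i = ix b v k := by
  obtain ⟨c, u, w⟩ := i
  simp only at h
  subst h
  cases c
  · exact ⟨u, w, rfl⟩
  · exact ⟨w, u, rfl⟩

theorem ix_fst (b : Bool) (v k : Fin n) : (ix b v k).1 = b := by
  cases b <;> rfl

theorem ox_surj (b : Bool) (o : Fin n × Fin n) : ∃ v k, o = ox b v k := by
  obtain ⟨u, w⟩ := o
  cases b
  · exact ⟨u, w, rfl⟩
  · exact ⟨w, u, rfl⟩

theorem ox_inj (b : Bool) {v k v' k' : Fin n} (h : ox b v k = ox b v' k') : v = v' ∧ k = k' := by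
  cases b <;> simp [ox] at h <;> tauto

open Classical in
/-- the reads of the vector `v` of the matrix `b` -/
noncomputable def Rv (b : Bool) (S : Finset (Bool × Fin n × Fin n)) (v : Fin n) :
    Finset (Fin n) := univ.filter (fun k => ix b v k ∈ S)

open Classical in
/-- the outputs for the vector `v` of the matrix `b` -/
noncomputable def Ov (b : Bool) (J : Finset (Fin n × Fin n)) (v : Fin n) : Finset (Fin n) :=
  univ.filter (fun o => ox b v o ∈ J)

open Classical in
/-- the vectors of the matrix `b` with few reads -/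
noncomputable def Lt (b : Bool) (S : Finset (Bool × Fin n × Fin n)) : Finset (Fin n) :=
  univ.filter (fun v => 32 * (Rv b S v).card ≤ n)

open Classical in
/-- the outputs whose vector in the matrix `b` has few reads -/
noncomputable def Jv (b : Bool) (S : Finset (Bool × Fin n × Fin n)) (J : Finset (Fin n × Fin n)) :
    Finset (Fin n × Fin n) := J.filter (fun o => ∃ v ∈ Lt b S, ∃ k, o = ox b v k)

theorem heavy (b : Bool) (S : Finset (Bool × Fin n × Fin n)) :
    (univ \ Lt b S).card * n ≤ 32 * S.card := by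
  classical
  have h1 : ∑ v : Fin n, (Rv b S v).card ≤ S.card := by
    rw [← card_sigma]
    apply card_le_card_of_injOn (fun s => ix b s.1 s.2)
    · rintro ⟨v, k⟩ h
      rw [mem_coe, mem_sigma] at h
      unfold Rv at h
      exact (mem_filter.1 h.2).2
    · rintro ⟨v, k⟩ - ⟨v', k'⟩ - h
      obtain ⟨rfl, rfl⟩ := ix_inj b h
      rfl
  calc (univ \ Lt b S).card * n = ∑ _v ∈ univ \ Lt b S, n := by rw [sum_const, smul_eq_mul]
    _ ≤ ∑ v ∈ univ \ Lt b S, 32 * (Rv b S v).card := by
        apply sum_le_sum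
        intro v hv
        rw [mem_sdiff] at hv
        by_contra h
        apply hv.2
        unfold Lt
        exact mem_filter.2 ⟨mem_univ _, by omega⟩
    _ ≤ ∑ v : Fin n, 32 * (Rv b S v).card := sum_le_sum_of_subset (subset_univ _)
    _ = 32 * ∑ v : Fin n, (Rv b S v).card := (mul_sum _ _ _).symm
    _ ≤ 32 * S.card := Nat.mul_le_mul_left _ h1

theorem split (S : Finset (Bool × Fin n × Fin n)) (J : Finset (Fin n × Fin n)) :
    n ^ 2 * J.card ≤ n ^ 2 * ((Jv false S J).card + (Jv true S J).card) + 1024 * S.card ^ 2 := by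
  classical
  have h1 : J ⊆ (Jv false S J ∪ Jv true S J) ∪
      (univ \ Lt false S) ×ˢ (univ \ Lt true S) := by
    intro o ho
    by_cases h2 : o.1 ∈ Lt false S
    · refine mem_union_left _ (mem_union_left _ ?_)
      unfold Jv
      rw [mem_filter]
      exact ⟨ho, o.1, h2, o.2, rfl⟩
    · by_cases h3 : o.2 ∈ Lt true S
      · refine mem_union_left _ (mem_union_right _ ?_)
        unfold Jv
        rw [mem_filter]
        exact ⟨ho, o.2, h3, o.1, rfl⟩
      · refine mem_union_right _ ?_
        simp only [mem_product, mem_sdiff, mem_univ, true_and]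
        exact ⟨h2, h3⟩
  have h2 := (card_le_card h1).trans ((card_union_le _ _).trans
    (Nat.add_le_add_right (card_union_le _ _) _))
  rw [card_product] at h2
  have h3 := heavy false S
  have h4 := heavy true S
  calc n ^ 2 * J.card ≤ n ^ 2 * ((Jv false S J).card + (Jv true S J).card +
        (univ \ Lt false S).card * (univ \ Lt true S).card) := Nat.mul_le_mul_left _ h2
    _ = n ^ 2 * ((Jv false S J).card + (Jv true S J).card) +
        ((univ \ Lt false S).card * n) * ((univ \ Lt true S).card * n) := by ring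
    _ ≤ n ^ 2 * ((Jv false S J).card + (Jv true S J).card) + (32 * S.card) * (32 * S.card) :=
        Nat.add_le_add_left (Nat.mul_le_mul h3 h4) _
    _ = _ := by ring

variable [Field F] [Fintype F] [DecidableEq F]

/-- One matrix is fixed. -/
theorem fiber (b : Bool) (S : Finset (Bool × Fin n × Fin n)) (J : Finset (Fin n × Fin n))
    (M : Mat F n) (hM : LG M) (z₀ : Mat F n) (t : Fin n × Fin n → F)
    (hJ : ∀ o ∈ J, ∃ v ∈ Lt b S, ∃ k, o = ox b v k) :
    (univ.filter (fun z : Mat F n => (∀ v, ∀ k ∈ Rv b S v, z v k = z₀ v k) ∧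
      ∀ v, ∀ o ∈ Ov b J v, ∑ k, M o k * z v k = t (ox b v o))).card *
        Fintype.card F ^ (J.card / 16) ≤
      (univ.filter (fun z : Mat F n => ∀ v, ∀ k ∈ Rv b S v, z v k = z₀ v k)).card := by
  classical
  by_cases hne : (univ.filter (fun z : Mat F n => (∀ v, ∀ k ∈ Rv b S v, z v k = z₀ v k) ∧
      ∀ v, ∀ o ∈ Ov b J v, ∑ k, M o k * z v k = t (ox b v o))).Nonempty
  swap
  · rw [not_nonempty_iff_eq_empty] at hne
    rw [hne, card_empty, zero_mul]
    exact Nat.zero_le _
  obtain ⟨z₁, hz₁⟩ := hne
  rw [mem_filter] at hz₁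
  obtain ⟨-, h1, h2⟩ := hz₁
  have hr := rows_count M hM z₁ (Rv b S) (Ov b J) (Lt b S) (by
    intro v hv
    unfold Lt at hv
    exact (mem_filter.1 hv).2)
  have hJs : J.card ≤ ∑ v ∈ Lt b S, (Ov b J v).card := by
    have h3 : J ⊆ (Lt b S).biUnion (fun v => (Ov b J v).image (fun o => ox b v o)) := by
      intro o ho
      obtain ⟨v, hv, k, rfl⟩ := hJ o ho
      rw [mem_biUnion]
      refine ⟨v, hv, mem_image.2 ⟨k, ?_, rfl⟩⟩
      unfold Ov
      exact mem_filter.2 ⟨mem_univ _, ho⟩
    refine (card_le_card h3).trans (card_biUnion_le.trans ?_)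
    exact sum_le_sum fun v _ => card_image_le
  have hceil := sum_ceil (Ov b J) (Lt b S) hJs
  refine le_trans (Nat.mul_le_mul_left _ (Nat.pow_le_pow_right Fintype.card_pos hceil)) ?_
  refine le_trans (Nat.mul_le_mul_right _ (card_le_card ?_)) (hr.trans (card_le_card ?_))
  · intro z hz
    rw [mem_filter] at hz ⊢
    obtain ⟨-, h3, h4⟩ := hz
    refine ⟨mem_univ _, fun v k hk => (h3 v k hk).trans (h1 v k hk).symm, fun v o ho => ?_⟩
    rw [h4 v o ho, h2 v o ho]
  · intro z hz
    rw [mem_filter] at hz ⊢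
    exact ⟨mem_univ _, fun v k hk => (hz.2 v k hk).trans (h1 v k hk)⟩

/-- **The count for one piece**, the outputs in vectors of the matrix `b` with few reads. -/
theorem side (b : Bool) (S : Finset (Bool × Fin n × Fin n)) (J : Finset (Fin n × Fin n))
    (hJ : ∀ o ∈ J, ∃ v ∈ Lt b S, ∃ k, o = ox b v k) (A : Finset (Mat F n × Mat F n))
    (hA : ∀ y ∈ A, LG (part (!b) y)) (y₀ : Mat F n × Mat F n) :
    Nat.card {y // y ∈ A ∧ (∀ i ∈ S, two y i = two y₀ i) ∧
      ∀ o ∈ J, mm (two y) o = mm (two y₀) o} * Fintype.card F ^ (J.card / 16) ≤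
    Nat.card {y : Mat F n × Mat F n // ∀ i ∈ S, two y i = two y₀ i} := by
  classical
  rw [Nat.card_eq_fintype_card, Nat.card_eq_fintype_card, Fintype.card_subtype,
    Fintype.card_subtype]
  obtain ⟨S₁, hS₁⟩ : ∃ S₁, S₁ = univ.filter (fun y : Mat F n × Mat F n => y ∈ A ∧
    (∀ i ∈ S, two y i = two y₀ i) ∧ ∀ o ∈ J, mm (two y) o = mm (two y₀) o) := ⟨_, rfl⟩
  obtain ⟨S₂, hS₂⟩ : ∃ S₂, S₂ = univ.filter (fun y : Mat F n × Mat F n =>
    ∀ i ∈ S, two y i = two y₀ i) := ⟨_, rfl⟩
  rw [← hS₁, ← hS₂]
  rw [card_eq_sum_card_fiberwise (s := S₁) (f := fun y => part (!b) y) (t := univ)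
    (fun y _ => mem_univ _), card_eq_sum_card_fiberwise (s := S₂)
    (f := fun y => part (!b) y) (t := univ) (fun y _ => mem_univ _), sum_mul]
  apply sum_le_sum
  intro M _
  by_cases hne : (S₁.filter (fun y => part (!b) y = M)).Nonempty
  swap
  · rw [not_nonempty_iff_eq_empty] at hne
    rw [hne, card_empty, zero_mul]
    exact Nat.zero_le _
  obtain ⟨y₁, hy₁⟩ := hne
  rw [mem_filter, hS₁, mem_filter] at hy₁
  obtain ⟨⟨-, h1, h2, h3⟩, h4⟩ := hy₁
  have hM : LG M := by rw [← h4]; exact hA y₁ h1
  have hf := fiber b S J M hM (part b y₀) (mm (two y₀)) hJ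
  refine le_trans (Nat.mul_le_mul_right _ ?_) (hf.trans ?_)
  · apply card_le_card_of_injOn (fun y => part b y)
    · intro y hy
      rw [mem_coe, mem_filter, hS₁, mem_filter] at hy
      obtain ⟨⟨-, -, g2, g3⟩, g4⟩ := hy
      rw [mem_coe, mem_filter]
      refine ⟨mem_univ _, fun v k hk => ?_, fun v o ho => ?_⟩
      · unfold Rv at hk
        have := g2 _ (mem_filter.1 hk).2
        rwa [two_ix, two_ix] at this
      · unfold Ov at ho
        have := g3 _ (mem_filter.1 ho).2
        rw [mm_ox, g4] at this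
        exact this
    · intro y hy y' hy' h
      rw [mem_coe, mem_filter] at hy hy'
      exact part_ext b h (hy.2.trans hy'.2.symm)
  · apply card_le_card_of_injOn (fun z => mk b M z)
    · intro z hz
      rw [mem_coe, mem_filter] at hz
      rw [mem_coe, mem_filter, hS₂, mem_filter]
      refine ⟨⟨mem_univ _, fun i hi => ?_⟩, part_mk' b M z⟩
      by_cases hib : i.1 = b
      · obtain ⟨v, k, rfl⟩ := ix_surj b i hib
        rw [two_ix, two_ix, part_mk]
        apply hz.2 v k
        unfold Rv
        exact mem_filter.2 ⟨mem_univ _, hi⟩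
      · have hib' : i.1 = !b := by
          cases hb : b <;> cases hc : i.1 <;> simp_all
        obtain ⟨v, k, rfl⟩ := ix_surj (!b) i hib'
        have := h2 _ hi
        rw [two_ix, two_ix] at this
        rw [two_ix, two_ix, part_mk', ← this, h4]
    · intro z _ z' _ h
      have := congrArg (part b) h
      rwa [part_mk, part_mk] at this

end side

end Pool.Agent.U514.MM
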