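import Mathlib
import Pool.Agent.U514.MM.Rand
import Pool.Agent.U514.MM.NumK

/-!
# Products of two matrices over a finite field by random circuits: universality
-/

set_option autoImplicit false

open Finset

namespace Pool.Agent.U514.MM

open Pool.Agent.Y631.Tr
open Pool.Agent.W896.MO
open Pool.Agent.U514.PD (gateGraph Divided)
open Pool.Agent.U514.MU (HasSeparators Universal HasMinor division separators_of_not_universal)

variable {F : Type} [Field F] [Fintype F] {n : ℕ}

/-- One circuit. -/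
theorem mm_net [DecidableEq F] (hn : 20 ≤ n)
    (C : Net (Bool × Fin n × Fin n) (Fin n × Fin n) F) (β w ν π : ℕ) (hdiv : Divided C β w ν)
    (hπ : 4 * (π + 2) ≤ n)
    (h : Fintype.card F ^ (2 * n ^ 2) ≤ 2 ^ π *
      Nat.card {x : Bool × Fin n × Fin n → F // C.Computes x (mm x)}) :
    n ^ 4 ≤ ν * (1024 * w ^ 2 + 32 * n ^ 2 * (π + β + 2)) := by
  classical
  obtain ⟨q, hq⟩ : ∃ q, q = Fintype.card F := ⟨_, rfl⟩
  have hq2 : 2 ≤ q := by rw [hq]; exact Fintype.one_lt_card
  obtain ⟨L, hL1, hL2, hL3⟩ := hdiv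
  obtain ⟨W, hW⟩ : ∃ W, W = Fintype.card (Mat F n × Mat F n) := ⟨_, rfl⟩
  have hW0 : 0 < W := by rw [hW]; exact Fintype.card_pos
  obtain ⟨A, hA⟩ : ∃ A, A = univ.filter (fun y : Mat F n × Mat F n => (LG y.1 ∧ LG y.2) ∧
    C.Computes (two y) (mm (two y))) := ⟨_, rfl⟩
  rw [card_two (F := F) (fun v => C.Computes v (mm v)), Nat.card_eq_fintype_card,
      Fintype.card_subtype] at h
  have hWq : W = Fintype.card F ^ (2 * n ^ 2) := by
    rw [hW, Fintype.card_prod, Fintype.card_fun, Fintype.card_fun, Fintype.card_fin, ← pow_mul,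
      ← pow_add]
    congr 1
    ring
  rw [← hWq] at h
  -- the good inputs
  have hG : W ≤ 2 ^ (π + 1) * A.card := by
    obtain ⟨B, hB⟩ : ∃ B, B = (univ.filter (fun y : Mat F n × Mat F n =>
      ¬ (LG y.1 ∧ LG y.2))).card := ⟨_, rfl⟩
    have h3 : B * 2 ^ (n / 4) ≤ 2 * W := by rw [hB, hW]; convert bad_two (F := F) hn
    have h4 : (univ.filter (fun y : Mat F n × Mat F n => C.Computes (two y) (mm (two y)))).card ≤
        A.card + B := by
      rw [hA, hB]
      refine le_trans (card_le_card ?_) (card_union_le _ _)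
      intro y hy
      simp only [mem_filter, mem_univ, true_and, mem_union] at hy ⊢
      by_cases h : LG y.1 ∧ LG y.2
      · exact Or.inl ⟨h, hy⟩
      · exact Or.inr h
    have h5 : 2 ^ (π + 1) * B ≤ W := by
      have h6 : 2 ^ (π + 2) ≤ 2 ^ (n / 4) := Nat.pow_le_pow_right (by norm_num) (by omega)
      have h7 : B * 2 ^ (π + 2) ≤ 2 * W := (Nat.mul_le_mul_left _ h6).trans h3
      have h8 : B * 2 ^ (π + 2) = 2 * (2 ^ (π + 1) * B) := by
        rw [pow_succ 2 (π + 1)]; ring
      omega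
    have h7 : W ≤ 2 ^ π * (A.card + B) := h.trans (Nat.mul_le_mul_left _ h4)
    have h8 : 2 ^ π * (A.card + B) = 2 ^ π * A.card + 2 ^ π * B := by ring
    have h9 : 2 ^ (π + 1) * B = 2 * (2 ^ π * B) := by rw [pow_succ]; ring
    have h10 : 2 ^ (π + 1) * A.card = 2 * (2 ^ π * A.card) := by rw [pow_succ]; ring
    omega
  obtain ⟨J, hJ⟩ : ∃ J : Finset (Fin C.size) × Finset (Fin C.size) → Finset (Fin n × Fin n),
    ∀ p, J p = univ.filter (fun o => C.out o ∈ p.1 ∨ C.out o ∈ p.2) := ⟨_, fun _ => rfl⟩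
  have key : ∀ p ∈ L, n ^ 2 * (J p).card ≤ 1024 * w ^ 2 + 32 * n ^ 2 * (π + β + 2) := by
    intro p hp
    obtain ⟨hcl, hBc, hSw⟩ := hL1 p hp
    have hrc := (C.card_readSet p.1).trans hSw
    have hb : ∀ b : Bool, (Jv b (C.readSet p.1) (J p)).card ≤ 16 * (π + β + 2) := by
      intro b
      obtain ⟨Jb, hJb⟩ : ∃ Jb, Jb = Jv b (C.readSet p.1) (J p) := ⟨_, rfl⟩
      rw [← hJb]
      have hJb1 : ∀ o ∈ Jb, o ∈ J p ∧ ∃ v ∈ Lt b (C.readSet p.1), ∃ k, o = ox b v k := by
        intro o ho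
        rw [hJb] at ho
        unfold Jv at ho
        exact mem_filter.1 ho
      have hcount := C.piece_count (two : Mat F n × Mat F n → _) (fun y => mm (two y)) A
        (fun y hy => by rw [hA, mem_filter] at hy; exact hy.2.2) hcl (q ^ (Jb.card / 16)) Jb
        (fun o ho => by
          have := (hJb1 o ho).1
          rw [hJ, mem_filter] at this
          exact this.2) (by
          intro y0 _
          have h1 := side b (C.readSet p.1) Jb (fun o ho => (hJb1 o ho).2) A (by
            intro y hy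
            rw [hA, mem_filter] at hy
            cases b
            · simpa [part] using hy.2.1.2
            · simpa [part] using hy.2.1.1) y0
          rw [hq]
          exact h1)
      rw [← hq, ← hW] at hcount
      have h2 : q ^ (Jb.card / 16) ≤ q ^ (π + 1 + p.2.card) := by
        refine Nat.le_of_mul_le_mul_left ?_ hW0
        calc W * q ^ (Jb.card / 16) ≤ (2 ^ (π + 1) * A.card) * q ^ (Jb.card / 16) :=
              Nat.mul_le_mul_right _ hG
          _ = 2 ^ (π + 1) * (A.card * q ^ (Jb.card / 16)) := by rw [mul_assoc]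
          _ ≤ q ^ (π + 1) * (q ^ p.2.card * W) :=
              Nat.mul_le_mul (Nat.pow_le_pow_left hq2 _) hcount
          _ = W * q ^ (π + 1 + p.2.card) := by rw [pow_add q (π + 1)]; ring
      have h3 : Jb.card / 16 ≤ π + 1 + p.2.card := (Nat.pow_le_pow_iff_right (by omega)).1 h2
      omega
    have h1 := split (C.readSet p.1) (J p)
    have h2 := hb false
    have h3 := hb true
    calc n ^ 2 * (J p).card ≤ n ^ 2 * ((Jv false (C.readSet p.1) (J p)).card +
          (Jv true (C.readSet p.1) (J p)).card) + 1024 * (C.readSet p.1).card ^ 2 := h1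
      _ ≤ n ^ 2 * (16 * (π + β + 2) + 16 * (π + β + 2)) + 1024 * w ^ 2 :=
          Nat.add_le_add (Nat.mul_le_mul_left _ (Nat.add_le_add h2 h3))
            (Nat.mul_le_mul_left _ (Nat.pow_le_pow_left hrc 2))
      _ = _ := by ring
  have hcov : (univ : Finset (Fin n × Fin n)) ⊆ L.toFinset.biUnion J := by
    intro o _
    obtain ⟨p, hp, h1⟩ := hL2 (C.out o)
    rw [mem_biUnion]
    refine ⟨p, List.mem_toFinset.2 hp, ?_⟩
    rw [hJ, mem_filter]
    exact ⟨mem_univ _, h1⟩
  have hsum : n ^ 2 ≤ ∑ p ∈ L.toFinset, (J p).card := by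
    have := (card_le_card hcov).trans card_biUnion_le
    rw [card_univ, Fintype.card_prod, Fintype.card_fin] at this
    rw [sq]
    exact this
  calc n ^ 4 = n ^ 2 * n ^ 2 := by ring
    _ ≤ n ^ 2 * ∑ p ∈ L.toFinset, (J p).card := Nat.mul_le_mul_left _ hsum
    _ = ∑ p ∈ L.toFinset, n ^ 2 * (J p).card := mul_sum _ _ _
    _ ≤ ∑ p ∈ L.toFinset, (1024 * w ^ 2 + 32 * n ^ 2 * (π + β + 2)) :=
        sum_le_sum fun p hp => key p (List.mem_toFinset.1 hp)
    _ = L.toFinset.card * (1024 * w ^ 2 + 32 * n ^ 2 * (π + β + 2)) := by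
        rw [sum_const, smul_eq_mul]
    _ ≤ _ := Nat.mul_le_mul_right _ ((List.toFinset_card_le L).trans hL3)

/-- **Random circuits.** -/
theorem mm_random_universal [DecidableEq F] (hn : 20 ≤ n) {r g π μ d : ℕ}
    (hπ : 4 * (π + 2) ≤ n) (hμ : 1 ≤ μ) (hd : 4 * (Nat.log 2 g + 1) * g ≤ μ * d ^ 2)
    (hbig : 2 ^ 83 * (μ * (Nat.log 2 g + 1) * (π + 1) * ((g + n ^ 2) * (r + n ^ 2) ^ 2)) < n ^ 8)
    {R : Type} [Fintype R] [Nonempty R]
    (C : R → Net (Bool × Fin n × Fin n) (Fin n × Fin n) F)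
    (hC : ∀ i, (C i).reads ≤ r ∧ (C i).size ≤ g)
    (hc : Nat.card R * Fintype.card F ^ (2 * n ^ 2) ≤ 2 ^ π *
      Nat.card {u : R × (Bool × Fin n × Fin n → F) // (C u.1).Computes u.2 (mm u.2)}) :
    ∃ i, Universal (gateGraph (C i)) μ d := by
  classical
  by_contra hno
  push Not at hno
  have hcard : Nat.card (Bool × Fin n × Fin n → F) = Fintype.card F ^ (2 * n ^ 2) := by
    rw [Nat.card_eq_fintype_card, Fintype.card_fun, Fintype.card_prod, Fintype.card_prod,
      Fintype.card_bool, Fintype.card_fin, sq]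
  obtain ⟨i, hi⟩ := avg_exists (fun i v => (C i).Computes v (mm v)) (2 ^ π) (by
    rw [hcard]
    exact hc)
  rw [hcard] at hi
  obtain ⟨hi1, hi2⟩ := hC i
  obtain ⟨t, ht⟩ : ∃ t, t = Nat.log 2 g + 1 := ⟨_, rfl⟩
  rw [← ht] at hd hbig
  obtain ⟨A, hA⟩ : ∃ A, A = 36 * (μ * t) := ⟨_, rfl⟩
  have hA0 : 0 < A := by
    rw [hA]
    have : 0 < μ * t := Nat.mul_pos (by omega) (by omega)
    omega
  have hsep := separators_of_not_universal (G := gateGraph (C i)) (g := g) (by omega : 0 < μ)
    (by omega : 0 < t) (by rw [Fintype.card_fin]; exact hi2)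
    (by rw [ht]; exact (Nat.lt_pow_succ_log_self (by norm_num) _).le) hd (hno i)
  rw [← hA] at hsep
  have hmain := numK (m := n) (A := A * (π + 1)) (s := g + n ^ 2) (R := r + n ^ 2)
    (q₀ := max (5000 * A) (π + 2)) (K := 1024) (by omega) (Nat.mul_pos hA0 (Nat.succ_pos _))
    (by norm_num) (Nat.le_add_left _ _) (Nat.le_add_left _ _) (by
      apply max_le
      · calc 5000 * A = 5000 * (A * 1) := by rw [mul_one]
          _ ≤ _ := Nat.mul_le_mul_left _ (Nat.mul_le_mul_left _ (by omega))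
      · calc π + 2 ≤ 5000 * (1 * (π + 1)) := by omega
          _ ≤ _ := Nat.mul_le_mul_left _ (Nat.mul_le_mul_right _ hA0)) (by
      intro q w hq hq0 hw
      obtain ⟨L, h1, h2, h3⟩ := division hA0 hsep (C i).readsAt q w
        (le_trans (le_max_left _ _) hq) hw
      refine ⟨L.length, ?_, ?_⟩
      · have h4 := mm_net hn (C i) (5000 * q) w L.length π ⟨L, by
          intro p hp
          obtain ⟨h4, h5, h6⟩ := h1 p hp
          refine ⟨?_, h5, h6⟩
          intro h g hhg hg
          have hne : h ≠ g := by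
            obtain ⟨a, ha⟩ := hhg
            exact ((C i).acyclic g a h ha).ne
          exact h4 g hg h ((SimpleGraph.fromRel_adj _ _ _).2 ⟨hne.symm, Or.inr hhg⟩), h2,
            le_refl _⟩ hπ hi
        refine h4.trans ?_
        have h5 : 32 * (π + 5000 * q + 2) ≤ 1024 * (25000 * q) := by
          have := le_trans (le_max_right (5000 * A) (π + 2)) hq
          omega
        calc L.length * (1024 * w ^ 2 + 32 * n ^ 2 * (π + 5000 * q + 2))
            = L.length * (1024 * w ^ 2 + n ^ 2 * (32 * (π + 5000 * q + 2))) := by ring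
          _ ≤ L.length * (1024 * w ^ 2 + n ^ 2 * (1024 * (25000 * q))) :=
              Nat.mul_le_mul_left _ (Nat.add_le_add_left (Nat.mul_le_mul_left _ h5) _)
          _ = _ := by ring
      · refine h3.trans ?_
        apply Nat.add_le_add_right
        apply Nat.mul_le_mul_left
        rw [Fintype.card_fin]
        have h5 : ∑ v, (C i).readsAt v ≤ r + n ^ 2 := hi1.trans (Nat.le_add_right _ _)
        refine Nat.add_le_add (Nat.mul_le_mul_left _ ?_) (Nat.mul_le_mul_left _ h5)
        calc A * (C i).size = A * 1 * (C i).size := by rw [mul_one]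
          _ ≤ A * (π + 1) * (g + n ^ 2) := by
              refine Nat.mul_le_mul (Nat.mul_le_mul_left _ (by omega)) (by omega))
  have h5 : 2 ^ 47 * 1024 ^ 3 * (A * (π + 1) * (g + n ^ 2) * (r + n ^ 2) ^ 2) ≤
      2 ^ 83 * (μ * t * (π + 1) * ((g + n ^ 2) * (r + n ^ 2) ^ 2)) := by
    rw [hA]
    calc 2 ^ 47 * 1024 ^ 3 * (36 * (μ * t) * (π + 1) * (g + n ^ 2) * (r + n ^ 2) ^ 2)
        = (2 ^ 77 * 36) * (μ * t * (π + 1) * ((g + n ^ 2) * (r + n ^ 2) ^ 2)) := by ring
      _ ≤ _ := Nat.mul_le_mul_right _ (by norm_num)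
  omega

end Pool.Agent.U514.MM
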