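import Mathlib
import Pool.Agent.H522R3.TW.Main
import Pool.Agent.U514.MU.Div

/-!
# Matrix multiplication circuits: division of the graph of the gates
-/

set_option autoImplicit false

namespace Pool.Agent.U514.MM

open Finset
open Pool.Agent.H522R2 Pool.Agent.H522R2.Circuit Pool.Agent.H522R3.TW
open Pool.Agent.U514.MU

/-- The graph of the gates of an arithmetic circuit: its vertices are the gates, and two gates are
joined by an edge if one of them is an input of the other. The inputs are deleted. -/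
def gateGraph {F V : Type} (C : Circuit F V) : SimpleGraph {k : Fin C.nodes // IsGate C k} :=
  SimpleGraph.fromRel (fun g h => Feeds C g.1 h.1)

theorem size_eq {F V : Type} (C : Circuit F V) :
    C.size = Nat.card {k : Fin C.nodes // IsGate C k} := by
  rw [size]
  apply Nat.card_congr
  apply Equiv.subtypeEquivRight
  intro k
  simp only [IsGate]
  constructor
  · rintro (⟨i, j, h⟩ | ⟨i, j, h⟩)
    · exact ⟨i, j, Or.inl h⟩
    · exact ⟨i, j, Or.inr h⟩
  · rintro ⟨i, j, h | h⟩
    · exact Or.inl ⟨i, j, h⟩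
    · exact Or.inr ⟨i, j, h⟩

variable {F : Type} [Field F] {m : ℕ}

omit [Field F] in
theorem sum_readSet (C : Circuit F (Vars m)) [Fintype {k : Fin C.nodes // IsGate C k}] :
    ∑ v : {k : Fin C.nodes // IsGate C k}, (readSet C v.1).card ≤ readCount C := by
  classical
  rw [readCount_eq]
  calc ∑ v : {k : Fin C.nodes // IsGate C k}, (readSet C v.1).card
      = ∑ k ∈ univ.map (Function.Embedding.subtype _), (readSet C k).card := by
        rw [Finset.sum_map]
        rfl
    _ ≤ ∑ k, (readSet C k).card := Finset.sum_le_sum_of_subset (subset_univ _)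

theorem entry_inj {p p' : Fin m × Fin m} (h2 : entry F m p.1 p.2 = entry F m p'.1 p'.2) :
    p = p' := by
  classical
  by_contra hne
  have h3 := congrArg (MvPolynomial.aeval (R := F) (fun v : Vars m =>
    match v with
    | .inl r => if r = (p.1, p.1) then (1 : F) else 0
    | .inr r => if r = (p.1, p.2) then (1 : F) else 0)) h2
  rw [entry, entry, map_sum, map_sum, Finset.sum_eq_single p.1, Finset.sum_eq_single p.1] at h3
  · simp only [map_mul, MvPolynomial.aeval_X, if_true, mul_one] at h3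
    by_cases h4 : p.1 = p'.1
    · have h5 : p'.2 ≠ p.2 := fun h5 => hne (Prod.ext h4 h5.symm)
      rw [← h4] at h3
      simp at h3
      exact h5 (by simpa using congrArg Prod.snd h3)
    · have h5 : p'.1 ≠ p.1 := fun h5 => h4 h5.symm
      simp [h5] at h3
  · intro k _ hk
    simp [hk]
  · intro hi
    exact absurd (mem_univ _) hi
  · intro k _ hk
    simp [hk]
  · intro hi
    exact absurd (mem_univ _) hi

theorem size_ge (C : Circuit F (Vars m)) (hC : ∀ i j, ∃ k, C.poly k = entry F m i j) :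
    m ^ 2 ≤ C.size := by
  classical
  choose out hout using hC
  have hinj : Function.Injective fun p : Fin m × Fin m =>
      (⟨out p.1 p.2, isGate_of_entry C _ _ _ (hout p.1 p.2)⟩ :
        {k : Fin C.nodes // IsGate C k}) := by
    intro p p' h
    have h1 : out p.1 p.2 = out p'.1 p'.2 := congrArg Subtype.val h
    exact entry_inj (by rw [← hout, ← hout, h1])
  rw [size_eq]
  have h1 := Nat.card_le_card_of_injective _ hinj
  rw [Nat.card_eq_fintype_card, Fintype.card_prod, Fintype.card_fin] at h1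
  rw [sq]
  exact h1

open Classical in
/-- One piece of the division. -/
theorem piece_bound (C : Circuit F (Vars m)) (out : Fin m → Fin m → Fin C.nodes)
    (hout : ∀ i j, C.poly (out i j) = entry F m i j)
    (I B : Finset {k : Fin C.nodes // IsGate C k}) (q w : ℕ)
    (hcl : ∀ v ∈ I, ∀ u, (gateGraph C).Adj v u → u ∈ I ∨ u ∈ B)
    (hB : B.card ≤ 5000 * q) (hI : ∑ v ∈ I, (readSet C v.1).card ≤ w) :
    m ^ 2 * (univ.filter fun p : Fin m × Fin m => ∃ v : {k : Fin C.nodes // IsGate C k}, v.1 = out p.1 p.2 ∧ (v ∈ I ∨ v ∈ B)).card ≤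
      w ^ 2 + 25000 * m ^ 2 * q := by
  have hinj : ∀ p p' : Fin m × Fin m, out p.1 p.2 = out p'.1 p'.2 → p = p' := by
    intro p p' h1
    exact entry_inj (by rw [← hout, ← hout, h1])
  obtain ⟨E, hE⟩ : ∃ E, E = univ.filter fun p : Fin m × Fin m =>
    out p.1 p.2 ∈ I.map (Function.Embedding.subtype _) := ⟨_, rfl⟩
  obtain ⟨E', hE'⟩ : ∃ E', E' = univ.filter fun p : Fin m × Fin m =>
    out p.1 p.2 ∈ B.map (Function.Embedding.subtype _) := ⟨_, rfl⟩
  have h1 : (univ.filter fun p : Fin m × Fin m => ∃ v : {k : Fin C.nodes // IsGate C k}, v.1 = out p.1 p.2 ∧ (v ∈ I ∨ v ∈ B)) ⊆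
      E ∪ E' := by
    intro p hp
    obtain ⟨v, hv, h | h⟩ := (mem_filter.1 hp).2
    · refine mem_union_left _ ?_
      rw [hE, mem_filter]
      exact ⟨mem_univ _, mem_map.2 ⟨v, h, hv⟩⟩
    · refine mem_union_right _ ?_
      rw [hE', mem_filter]
      exact ⟨mem_univ _, mem_map.2 ⟨v, h, hv⟩⟩
  have h2 := (card_le_card h1).trans (card_union_le _ _)
  have h3 : E'.card ≤ 5000 * q := by
    refine le_trans ?_ hB
    rw [← card_map (Function.Embedding.subtype (fun k => IsGate C k))]
    apply card_le_card_of_injOn (fun p : Fin m × Fin m => out p.1 p.2)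
    · intro p hp
      rw [hE'] at hp
      exact (mem_filter.1 hp).2
    · intro p _ p' _ h
      exact hinj p p' h
  have h4 := piece C (I.map (Function.Embedding.subtype _)) (B.map (Function.Embedding.subtype _))
    (by
      intro g hg
      rw [mem_map] at hg
      obtain ⟨v, _, rfl⟩ := hg
      exact v.2) (by
      intro g hg hgD h hf hh
      rw [mem_map] at hg
      obtain ⟨v, hv, rfl⟩ := hg
      by_cases hne : v = ⟨h, hh⟩
      · left
        rw [hne] at hv
        exact mem_map.2 ⟨_, hv, rfl⟩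
      · have h4 := hcl v hv ⟨h, hh⟩ (by
          rw [gateGraph, SimpleGraph.fromRel_adj]
          exact ⟨hne, Or.inr hf⟩)
        rcases h4 with h4 | h4
        · left
          exact mem_map.2 ⟨_, h4, rfl⟩
        · right
          exact mem_map.2 ⟨_, h4, rfl⟩)
    (univ.filter fun r => ∃ g ∈ I.map (Function.Embedding.subtype _), Reads C g (.inl r))
    (univ.filter fun r => ∃ g ∈ I.map (Function.Embedding.subtype _), Reads C g (.inr r)) (by
      intro g hg r hr
      exact mem_filter.2 ⟨mem_univ _, g, hg, hr⟩) (by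
      intro g hg r hr
      exact mem_filter.2 ⟨mem_univ _, g, hg, hr⟩) E (by
      intro p hp
      rw [hE] at hp
      exact ⟨out p.1 p.2, (mem_filter.1 hp).2, hout p.1 p.2⟩)
  have h5 := card_RA_RB C (I.map (Function.Embedding.subtype _))
  rw [Finset.sum_map] at h5
  rw [card_map] at h4
  set x := (univ.filter fun r : Fin m × Fin m =>
    ∃ g ∈ I.map (Function.Embedding.subtype _), Reads C g (.inl r)).card
  set y := (univ.filter fun r : Fin m × Fin m =>
    ∃ g ∈ I.map (Function.Embedding.subtype _), Reads C g (.inr r)).card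
  have h6 : x + y ≤ w := h5.trans hI
  have h7 : 4 * (x * y) ≤ w ^ 2 := by
    have h8 : (x + y) ^ 2 ≤ w ^ 2 := Nat.pow_le_pow_left h6 2
    refine le_trans ?_ h8
    zify
    nlinarith [sq_nonneg ((x : ℤ) - y)]
  have h8 : m ^ 2 * (E.card + E'.card) ≤
      (4 * (x * y) + 4 * m ^ 2 * B.card) + m ^ 2 * (5000 * q) := by
    rw [mul_add]
    exact Nat.add_le_add h4 (Nat.mul_le_mul_left _ h3)
  have h9 : 4 * m ^ 2 * B.card ≤ 4 * m ^ 2 * (5000 * q) := Nat.mul_le_mul_left _ hB
  have h10 : w ^ 2 + 25000 * m ^ 2 * q =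
      w ^ 2 + 4 * m ^ 2 * (5000 * q) + m ^ 2 * (5000 * q) := by ring
  rw [h10]
  exact (Nat.mul_le_mul_left _ h2).trans (h8.trans
    (Nat.add_le_add_right (Nat.add_le_add h7 h9) _))

open Classical in
/-- **The inequality for a list of pieces.** -/
theorem pieces_bound (C : Circuit F (Vars m)) (hC : ∀ i j, ∃ k, C.poly k = entry F m i j)
    (q w : ℕ) (L : List (Finset {k : Fin C.nodes // IsGate C k} ×
      Finset {k : Fin C.nodes // IsGate C k}))
    (hL : ∀ p ∈ L, (∀ v ∈ p.1, ∀ u, (gateGraph C).Adj v u → u ∈ p.1 ∨ u ∈ p.2) ∧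
      p.2.card ≤ 5000 * q ∧ ∑ v ∈ p.1, (readSet C v.1).card ≤ w)
    (hcov : ∀ v, ∃ p ∈ L, v ∈ p.1 ∨ v ∈ p.2) :
    m ^ 4 ≤ L.length * (w ^ 2 + 25000 * m ^ 2 * q) := by
  choose out hout using hC
  obtain ⟨O, hO⟩ : ∃ O : Finset {k : Fin C.nodes // IsGate C k} ×
      Finset {k : Fin C.nodes // IsGate C k} → Finset (Fin m × Fin m), ∀ P, O P =
      (univ.filter fun p : Fin m × Fin m => ∃ v : {k : Fin C.nodes // IsGate C k}, v.1 = out p.1 p.2 ∧ (v ∈ P.1 ∨ v ∈ P.2)) :=
    ⟨_, fun _ => rfl⟩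
  have h1 : ∀ P ∈ L.toFinset, m ^ 2 * (O P).card ≤ w ^ 2 + 25000 * m ^ 2 * q := by
    intro P hP
    rw [List.mem_toFinset] at hP
    rw [hO]
    obtain ⟨h2, h3, h4⟩ := hL P hP
    exact piece_bound C out hout P.1 P.2 q w h2 h3 h4
  have h2 : (univ : Finset (Fin m × Fin m)) ⊆ L.toFinset.biUnion O := by
    intro p _
    obtain ⟨P, hP, h⟩ := hcov ⟨out p.1 p.2, isGate_of_entry C _ _ _ (hout p.1 p.2)⟩
    rw [mem_biUnion]
    refine ⟨P, List.mem_toFinset.2 hP, ?_⟩
    rw [hO, mem_filter]
    exact ⟨mem_univ _, _, rfl, h⟩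
  have h3 : m ^ 2 ≤ ∑ P ∈ L.toFinset, (O P).card := by
    have := (card_le_card h2).trans card_biUnion_le
    rw [card_univ, Fintype.card_prod, Fintype.card_fin] at this
    rw [sq]
    exact this
  calc m ^ 4 = m ^ 2 * m ^ 2 := by ring
    _ ≤ m ^ 2 * ∑ P ∈ L.toFinset, (O P).card := Nat.mul_le_mul_left _ h3
    _ = ∑ P ∈ L.toFinset, m ^ 2 * (O P).card := mul_sum _ _ _
    _ ≤ ∑ P ∈ L.toFinset, (w ^ 2 + 25000 * m ^ 2 * q) := sum_le_sum h1
    _ = L.toFinset.card * (w ^ 2 + 25000 * m ^ 2 * q) := by rw [sum_const, smul_eq_mul]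
    _ ≤ _ := Nat.mul_le_mul_right _ (List.toFinset_card_le L)

end Pool.Agent.U514.MM
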