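import Mathlib
import Pool.Agent.U514.MM.Main
import Pool.Agent.U514.MM.Num
import Pool.Agent.U514.PD.ApspCor

/-!
# Matrix multiplication circuits contain every graph as a minor
-/

set_option autoImplicit false

namespace Pool.Agent.U514.MM

open Finset
open Pool.Agent.H522R2 Pool.Agent.H522R2.Circuit Pool.Agent.H522R3.TW
open Pool.Agent.U514.MU

section one

variable {F : Type} [Field F] {m : ℕ}

open Classical in
theorem mm_sep (C : Circuit F (Vars m)) (hC : ∀ i j, ∃ k, C.poly k = entry F m i j)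
    (hm : 1 ≤ m) {A : ℕ} (hA : 1 ≤ A) (hsep : HasSeparators (gateGraph C) A) :
    m ^ 8 ≤ 2 ^ 47 * (A * C.size * readCount C ^ 2) := by
  refine num (q₀ := 5000 * A) hm hA (size_ge C hC) (reads_lower C hC) le_rfl ?_
  intro q w hq hq0 hw
  obtain ⟨L, h1, h2, h3⟩ := division hA hsep (fun v => (readSet C v.1).card) q w hq hw
  refine ⟨L.length, pieces_bound C hC q w L h1 h2, h3.trans ?_⟩
  have h4 : Fintype.card {k : Fin C.nodes // IsGate C k} = C.size := by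
    rw [size_eq, Nat.card_eq_fintype_card]
  rw [h4]
  have h5 := sum_readSet C
  exact Nat.add_le_add_right (Nat.mul_le_mul_left _ (Nat.add_le_add_left
    (Nat.mul_le_mul_left _ h5) _)) _

/-- **A circuit for the product of two matrices is large, or reads many entries, or its graph of
gates is universal.** -/
theorem mm_universal (C : Circuit F (Vars m)) (hC : ∀ i j, ∃ k, C.poly k = entry F m i j)
    {M d : ℕ} (hM : 1 ≤ M) (hd : 4 * (Nat.log 2 C.size + 1) * C.size ≤ M * d ^ 2)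
    (h : 2 ^ 53 * (M * (Nat.log 2 C.size + 1) * C.size * readCount C ^ 2) < m ^ 8) :
    Universal (gateGraph C) M d := by
  classical
  by_contra hno
  have hm : 1 ≤ m := by
    have h0 : 0 < m ^ 8 := lt_of_le_of_lt (Nat.zero_le _) h
    exact Nat.pos_of_ne_zero fun h1 => (Nat.pos_iff_ne_zero.1 h0) (by
      rw [Nat.pow_eq_zero]
      exact ⟨h1, by norm_num⟩)
  have h4 : Fintype.card {k : Fin C.nodes // IsGate C k} = C.size := by
    rw [size_eq, Nat.card_eq_fintype_card]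
  have hsep : HasSeparators (gateGraph C) (36 * (M * (Nat.log 2 C.size + 1))) :=
    separators_of_not_universal hM (Nat.succ_pos _) h4.le
      (Nat.lt_pow_succ_log_self (by norm_num) _).le hd hno
  have h5 := mm_sep C hC hm (by
    have : 1 ≤ M * (Nat.log 2 C.size + 1) := Nat.mul_pos hM (Nat.succ_pos _)
    omega) hsep
  have h6 : 2 ^ 47 * (36 * (M * (Nat.log 2 C.size + 1)) * C.size * readCount C ^ 2) ≤
      2 ^ 53 * (M * (Nat.log 2 C.size + 1) * C.size * readCount C ^ 2) := by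
    calc 2 ^ 47 * (36 * (M * (Nat.log 2 C.size + 1)) * C.size * readCount C ^ 2)
        = (2 ^ 47 * 36) * (M * (Nat.log 2 C.size + 1) * C.size * readCount C ^ 2) := by ring
      _ ≤ _ := Nat.mul_le_mul_right _ (by norm_num)
  omega

/-- Circuits whose graph of gates does not contain a fixed graph as a minor. -/
theorem mm_minor_free (C : Circuit F (Vars m)) (hC : ∀ i j, ∃ k, C.poly k = entry F m i j)
    {M : ℕ} (hM : 1 ≤ M) (W : Type) [Fintype W] (H : SimpleGraph W) (hW : Fintype.card W ≤ M)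
    (hE : H.edgeSet.ncard ≤ M) (hno : ∀ d, ¬ HasMinor (gateGraph C) H d) :
    m ^ 8 ≤ 2 ^ 55 * (M * (Nat.log 2 C.size + 1) * C.size ^ 3) := by
  by_contra hcon
  push Not at hcon
  have h1 := reads_le_size C
  have h2 : readCount C ^ 2 ≤ 4 * C.size ^ 2 := by
    calc readCount C ^ 2 ≤ (2 * C.size) ^ 2 := Nat.pow_le_pow_left h1 2
      _ = _ := by ring
  refine hno _ (mm_universal C hC hM (d := 4 * (Nat.log 2 C.size + 1) * C.size) ?_ ?_ W H hW hE)
  · obtain ⟨x, hx⟩ : ∃ x, x = 4 * (Nat.log 2 C.size + 1) * C.size := ⟨_, rfl⟩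
    rw [← hx]
    calc x ≤ x ^ 2 := by nlinarith [Nat.zero_le x]
      _ ≤ M * x ^ 2 := Nat.le_mul_of_pos_left _ hM
  · refine lt_of_le_of_lt ?_ hcon
    calc 2 ^ 53 * (M * (Nat.log 2 C.size + 1) * C.size * readCount C ^ 2)
        ≤ 2 ^ 53 * (M * (Nat.log 2 C.size + 1) * C.size * (4 * C.size ^ 2)) :=
          Nat.mul_le_mul_left _ (Nat.mul_le_mul_left _ h2)
      _ = _ := by ring

end one

open Pool.Agent.U514.PD (log_small)

lemma floor_ge_half' {x : ℝ} (hx : 1 ≤ x) : x / 2 ≤ (⌊x⌋₊ : ℝ) := by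
  have h1 : x < ⌊x⌋₊ + 1 := Nat.lt_floor_add_one x
  have h2 : (1 : ℝ) ≤ ⌊x⌋₊ := by
    exact_mod_cast (Nat.le_floor (by exact_mod_cast hx) : 1 ≤ ⌊x⌋₊)
  linarith

/-- **The graph of the gates of a fast circuit is universal.** -/
theorem mm_minors (γ ε : ℝ) (hγ : 0 ≤ γ) (hε : 0 < ε) (hγε : 3 * γ + ε ≤ 1) :
    ∀ᶠ m : ℕ in Filter.atTop, ∀ (F : Type) [Field F] (C : Circuit F (Vars m)),
      (∀ i j, ∃ k, C.poly k = entry F m i j) → (C.size : ℝ) ≤ ((m : ℝ) ^ 2) ^ (1 + γ) →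
      ∀ (W : Type) [Fintype W] (H : SimpleGraph W),
        (Fintype.card W : ℝ) ≤ ((m : ℝ) ^ 2) ^ (1 - 3 * γ - ε) →
        (H.edgeSet.ncard : ℝ) ≤ ((m : ℝ) ^ 2) ^ (1 - 3 * γ - ε) →
        HasMinor (gateGraph C) H ⌊((m : ℝ) ^ 2) ^ (2 * γ + ε)⌋₊ := by
  filter_upwards [log_small (2 ^ 55 * 4 + 1) 1 (2 * ε) (by positivity),
    log_small 128 1 ε hε, Filter.eventually_ge_atTop 1] with m h2 h2' hm F _ C hC hs W _ H hW hE
  have hm1 : (1 : ℝ) ≤ m := by exact_mod_cast hm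
  obtain ⟨n, hn⟩ : ∃ n : ℝ, n = (m : ℝ) ^ 2 := ⟨_, rfl⟩
  have hn1 : 1 ≤ n := by rw [hn]; exact one_le_pow₀ hm1
  have hn0 : 0 < n := by linarith
  have hme : ((m : ℝ)) ^ (2 * ε) = n ^ ε := by
    rw [hn, ← Real.rpow_natCast (m : ℝ) 2, ← Real.rpow_mul (by linarith)]
    norm_num
  have hme' : ((m : ℝ)) ^ ε ≤ n ^ ε := by
    rw [← hme]
    exact Real.rpow_le_rpow_of_exponent_le hm1 (by linarith)
  rw [← hn] at hs hW hE ⊢
  rw [hme] at h2
  obtain ⟨L, hL⟩ : ∃ L, L = Nat.log 2 m := ⟨_, rfl⟩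
  rw [← hL] at h2 h2'
  have hL0 : (0 : ℝ) ≤ L := Nat.cast_nonneg _
  obtain ⟨M, hM⟩ : ∃ M, M = ⌊n ^ (1 - 3 * γ - ε)⌋₊ := ⟨_, rfl⟩
  obtain ⟨d, hd⟩ : ∃ d, d = ⌊n ^ (2 * γ + ε)⌋₊ := ⟨_, rfl⟩
  have hM1 : 1 ≤ n ^ (1 - 3 * γ - ε) := Real.one_le_rpow hn1 (by linarith)
  have hd1 : 1 ≤ n ^ (2 * γ + ε) := Real.one_le_rpow hn1 (by linarith)
  have hM2 : n ^ (1 - 3 * γ - ε) / 2 ≤ M := by rw [hM]; exact floor_ge_half' hM1
  have hM3 : (M : ℝ) ≤ n ^ (1 - 3 * γ - ε) := by rw [hM]; exact Nat.floor_le (by positivity)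
  have hMpos : 1 ≤ M := by rw [hM]; exact Nat.le_floor (by exact_mod_cast hM1)
  have hd2 : n ^ (2 * γ + ε) / 2 ≤ d := by rw [hd]; exact floor_ge_half' hd1
  -- the logarithm of the size
  have hlog : Nat.log 2 C.size + 1 ≤ 4 * (L + 1) := by
    have h3 : C.size ≤ m ^ 4 := by
      have : (C.size : ℝ) ≤ (m : ℝ) ^ 4 := by
        refine hs.trans ?_
        calc n ^ (1 + γ) ≤ n ^ (2 : ℝ) := Real.rpow_le_rpow_of_exponent_le hn1 (by linarith)
          _ = n ^ 2 := by rw [← Real.rpow_natCast n 2]; norm_num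
          _ = (m : ℝ) ^ 4 := by rw [hn]; ring
      exact_mod_cast this
    have h4 : C.size < 2 ^ (4 * (L + 1)) := by
      calc C.size ≤ m ^ 4 := h3
        _ < (2 ^ (L + 1)) ^ 4 := by
          apply Nat.pow_lt_pow_left _ (by norm_num)
          rw [hL]
          exact Nat.lt_pow_succ_log_self (by norm_num) m
        _ = 2 ^ (4 * (L + 1)) := by rw [← pow_mul]; congr 1; ring
    have h5 : Nat.log 2 C.size < 4 * (L + 1) := Nat.log_lt_of_lt_pow' (by omega) h4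
    omega
  -- the radius
  have hdep : 4 * (Nat.log 2 C.size + 1) * C.size ≤ M * d ^ 2 := by
    have h3 : (4 * (4 * ((L : ℝ) + 1)) * C.size) ≤ M * (d : ℝ) ^ 2 := by
      have e1 : n ^ (1 + γ + ε) = n ^ (1 - 3 * γ - ε) * (n ^ (2 * γ + ε)) ^ 2 := by
        rw [← Real.rpow_natCast (n ^ (2 * γ + ε)) 2, ← Real.rpow_mul hn0.le, ← Real.rpow_add hn0]
        congr 1
        push_cast
        ring
      have e3 : n ^ (1 + γ + ε) = n ^ ε * n ^ (1 + γ) := by
        rw [← Real.rpow_add hn0]; congr 1; ring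
      calc (4 * (4 * ((L : ℝ) + 1)) * C.size) ≤ 4 * (4 * ((L : ℝ) + 1)) * n ^ (1 + γ) :=
            mul_le_mul_of_nonneg_left hs (by positivity)
        _ = (128 * ((L : ℝ) + 1) ^ 1) * n ^ (1 + γ) / 8 := by ring
        _ ≤ n ^ ε * n ^ (1 + γ) / 8 := by
            apply div_le_div_of_nonneg_right _ (by norm_num)
            exact mul_le_mul_of_nonneg_right (h2'.trans hme') (by positivity)
        _ = n ^ (1 - 3 * γ - ε) / 2 * (n ^ (2 * γ + ε) / 2) ^ 2 := by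
            rw [← e3, e1]; ring
        _ ≤ M * (d : ℝ) ^ 2 := by
            apply mul_le_mul hM2 _ (by positivity) (by positivity)
            exact pow_le_pow_left₀ (by positivity) hd2 2
    have h4 : 4 * (4 * (L + 1)) * C.size ≤ M * d ^ 2 := by exact_mod_cast h3
    refine le_trans ?_ h4
    exact Nat.mul_le_mul_right _ (Nat.mul_le_mul_left _ hlog)
  -- the product
  have hprod : 2 ^ 53 * (M * (Nat.log 2 C.size + 1) * C.size * readCount C ^ 2) < m ^ 8 := by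
    have hr : (readCount C : ℝ) ≤ 2 * n ^ (1 + γ) := by
      have : (readCount C : ℝ) ≤ 2 * C.size := by exact_mod_cast reads_le_size C
      linarith
    have hl : ((Nat.log 2 C.size + 1 : ℕ) : ℝ) ≤ 4 * (L + 1) := by exact_mod_cast hlog
    have e1 : n ^ (4 : ℝ) = n ^ ε * (n ^ (1 - 3 * γ - ε) * n ^ (1 + γ) * (n ^ (1 + γ)) ^ 2) := by
      rw [← Real.rpow_natCast (n ^ (1 + γ)) 2, ← Real.rpow_mul hn0.le, ← Real.rpow_add hn0,
        ← Real.rpow_add hn0, ← Real.rpow_add hn0]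
      congr 1
      push_cast
      ring
    have e2 : n ^ (4 : ℝ) = (m : ℝ) ^ 8 := by
      rw [show n ^ (4 : ℝ) = n ^ 4 by rw [← Real.rpow_natCast n 4]; norm_num, hn]
      ring
    have h9 : (2 : ℝ) ^ 53 * (M * ((Nat.log 2 C.size + 1 : ℕ) : ℝ) * C.size *
        (readCount C : ℝ) ^ 2) < (m : ℝ) ^ 8 := by
      have hpos : 0 < n ^ (1 - 3 * γ - ε) * n ^ (1 + γ) * (n ^ (1 + γ)) ^ 2 := by positivity
      calc (2 : ℝ) ^ 53 * (M * ((Nat.log 2 C.size + 1 : ℕ) : ℝ) * C.size * (readCount C : ℝ) ^ 2)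
          ≤ 2 ^ 53 * (n ^ (1 - 3 * γ - ε) * (4 * (L + 1)) * n ^ (1 + γ) *
              (2 * n ^ (1 + γ)) ^ 2) := by
            gcongr
        _ = (2 ^ 55 * 4 * ((L : ℝ) + 1) ^ 1) *
              (n ^ (1 - 3 * γ - ε) * n ^ (1 + γ) * (n ^ (1 + γ)) ^ 2) := by ring
        _ < ((2 ^ 55 * 4 + 1) * ((L : ℝ) + 1) ^ 1) *
              (n ^ (1 - 3 * γ - ε) * n ^ (1 + γ) * (n ^ (1 + γ)) ^ 2) := by
            apply mul_lt_mul_of_pos_right _ hpos
            have : (0 : ℝ) < (L + 1) ^ 1 := by positivity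
            linarith
        _ ≤ n ^ ε * (n ^ (1 - 3 * γ - ε) * n ^ (1 + γ) * (n ^ (1 + γ)) ^ 2) :=
            mul_le_mul_of_nonneg_right h2 hpos.le
        _ = (m : ℝ) ^ 8 := by rw [← e1, e2]
    exact_mod_cast h9
  rw [← hd]
  refine mm_universal C hC hMpos hdep hprod W H ?_ ?_
  · rw [hM]
    exact Nat.le_floor hW
  · rw [hM]
    exact Nat.le_floor hE

end Pool.Agent.U514.MM
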