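import Mathlib
import Pool.Agent.U514.MM.RandMain
import Pool.Agent.U514.MM.Univ

/-!
# Products of two matrices over a finite field by random circuits: exponents
-/

set_option autoImplicit false

open Finset

namespace Pool.Agent.U514.MM

open Pool.Agent.Y631.Tr
open Pool.Agent.W896.MO (mm)
open Pool.Agent.U514.PD (log_small reads_le_of_arity)
open Pool.Agent.U514.MU (Universal HasMinor)

/-- **Random circuits with few gates.** -/
theorem mm_random_minors (κ π : ℕ) (γ ε : ℝ) (hγ : 0 ≤ γ) (hε : 0 < ε) (hγε : 3 * γ + ε ≤ 1) :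
    ∀ᶠ n : ℕ in Filter.atTop, ∀ (F : Type) [Field F] [Fintype F] (R : Type) [Fintype R]
      [Nonempty R] (C : R → Net (Bool × Fin n × Fin n) (Fin n × Fin n) F),
      (∀ i, (∀ g, (C i).arity g ≤ κ) ∧ ((C i).size : ℝ) ≤ ((n : ℝ) ^ 2) ^ (1 + γ)) →
      Nat.card R * Fintype.card F ^ (2 * n ^ 2) ≤ 2 ^ π *
        Nat.card {u : R × (Bool × Fin n × Fin n → F) // (C u.1).Computes u.2 (mm u.2)} →
      ∃ i, ∀ (W : Type) [Fintype W] (H : SimpleGraph W),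
        (Fintype.card W : ℝ) ≤ ((n : ℝ) ^ 2) ^ (1 - 3 * γ - ε) →
        (H.edgeSet.ncard : ℝ) ≤ ((n : ℝ) ^ 2) ^ (1 - 3 * γ - ε) →
        HasMinor (Pool.Agent.U514.PD.gateGraph (C i)) H ⌊((n : ℝ) ^ 2) ^ (2 * γ + ε)⌋₊ := by
  classical
  filter_upwards [log_small (2 ^ 86 * (π + 1) * (κ + 1) ^ 2 + 1) 1 (2 * ε) (by positivity),
    log_small 128 1 ε hε, Filter.eventually_ge_atTop 20,
    Filter.eventually_ge_atTop (4 * (π + 2))] with n h2 h2' hn20 hnπ F _ _ R _ _ C hC hc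
  have hm : 1 ≤ n := by omega
  have hm1 : (1 : ℝ) ≤ n := by exact_mod_cast hm
  obtain ⟨N, hN⟩ : ∃ N : ℝ, N = (n : ℝ) ^ 2 := ⟨_, rfl⟩
  have hn1 : 1 ≤ N := by rw [hN]; exact one_le_pow₀ hm1
  have hn0 : 0 < N := by linarith
  have hme : ((n : ℝ)) ^ (2 * ε) = N ^ ε := by
    rw [hN, ← Real.rpow_natCast (n : ℝ) 2, ← Real.rpow_mul (by linarith)]
    norm_num
  have hme' : ((n : ℝ)) ^ ε ≤ N ^ ε := by
    rw [← hme]
    exact Real.rpow_le_rpow_of_exponent_le hm1 (by linarith)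
  rw [← hN] at hC ⊢
  rw [hme] at h2
  obtain ⟨L, hL⟩ : ∃ L, L = Nat.log 2 n := ⟨_, rfl⟩
  rw [← hL] at h2 h2'
  have hL0 : (0 : ℝ) ≤ L := Nat.cast_nonneg _
  obtain ⟨M, hM⟩ : ∃ M, M = ⌊N ^ (1 - 3 * γ - ε)⌋₊ := ⟨_, rfl⟩
  obtain ⟨d, hd⟩ : ∃ d, d = ⌊N ^ (2 * γ + ε)⌋₊ := ⟨_, rfl⟩
  obtain ⟨g, hg⟩ : ∃ g, g = ⌊N ^ (1 + γ)⌋₊ := ⟨_, rfl⟩
  have hM1 : 1 ≤ N ^ (1 - 3 * γ - ε) := Real.one_le_rpow hn1 (by linarith)
  have hd1 : 1 ≤ N ^ (2 * γ + ε) := Real.one_le_rpow hn1 (by linarith)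
  have hM2 : N ^ (1 - 3 * γ - ε) / 2 ≤ M := by rw [hM]; exact floor_ge_half' hM1
  have hM3 : (M : ℝ) ≤ N ^ (1 - 3 * γ - ε) := by rw [hM]; exact Nat.floor_le (by positivity)
  have hMpos : 1 ≤ M := by rw [hM]; exact Nat.le_floor (by exact_mod_cast hM1)
  have hd2 : N ^ (2 * γ + ε) / 2 ≤ d := by rw [hd]; exact floor_ge_half' hd1
  have hg2 : (g : ℝ) ≤ N ^ (1 + γ) := by rw [hg]; exact Nat.floor_le (by positivity)
  -- the logarithm of the size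
  have hlog : Nat.log 2 g + 1 ≤ 4 * (L + 1) := by
    have h3 : g ≤ n ^ 4 := by
      have : (g : ℝ) ≤ (n : ℝ) ^ 4 := by
        refine hg2.trans ?_
        calc N ^ (1 + γ) ≤ N ^ (2 : ℝ) := Real.rpow_le_rpow_of_exponent_le hn1 (by linarith)
          _ = N ^ 2 := by rw [← Real.rpow_natCast N 2]; norm_num
          _ = (n : ℝ) ^ 4 := by rw [hN]; ring
      exact_mod_cast this
    have h4 : g < 2 ^ (4 * (L + 1)) := by
      calc g ≤ n ^ 4 := h3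
        _ < (2 ^ (L + 1)) ^ 4 := by
          apply Nat.pow_lt_pow_left _ (by norm_num)
          rw [hL]
          exact Nat.lt_pow_succ_log_self (by norm_num) n
        _ = 2 ^ (4 * (L + 1)) := by rw [← pow_mul]; congr 1; ring
    have h5 : Nat.log 2 g < 4 * (L + 1) := Nat.log_lt_of_lt_pow' (by omega) h4
    omega
  -- the radius
  have hdep : 4 * (Nat.log 2 g + 1) * g ≤ M * d ^ 2 := by
    have h3 : (4 * (4 * ((L : ℝ) + 1)) * g) ≤ M * (d : ℝ) ^ 2 := by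
      have e1 : N ^ (1 + γ + ε) = N ^ (1 - 3 * γ - ε) * (N ^ (2 * γ + ε)) ^ 2 := by
        rw [← Real.rpow_natCast (N ^ (2 * γ + ε)) 2, ← Real.rpow_mul hn0.le, ← Real.rpow_add hn0]
        congr 1
        push_cast
        ring
      have e3 : N ^ (1 + γ + ε) = N ^ ε * N ^ (1 + γ) := by
        rw [← Real.rpow_add hn0]; congr 1; ring
      calc (4 * (4 * ((L : ℝ) + 1)) * g) ≤ 4 * (4 * ((L : ℝ) + 1)) * N ^ (1 + γ) :=
            mul_le_mul_of_nonneg_left hg2 (by positivity)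
        _ = (128 * ((L : ℝ) + 1) ^ 1) * N ^ (1 + γ) / 8 := by ring
        _ ≤ N ^ ε * N ^ (1 + γ) / 8 := by
            apply div_le_div_of_nonneg_right _ (by norm_num)
            exact mul_le_mul_of_nonneg_right (h2'.trans hme') (by positivity)
        _ = N ^ (1 - 3 * γ - ε) / 2 * (N ^ (2 * γ + ε) / 2) ^ 2 := by
            rw [← e3, e1]; ring
        _ ≤ M * (d : ℝ) ^ 2 := by
            apply mul_le_mul hM2 _ (by positivity) (by positivity)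
            exact pow_le_pow_left₀ (by positivity) hd2 2
    have h4 : 4 * (4 * (L + 1)) * g ≤ M * d ^ 2 := by exact_mod_cast h3
    refine le_trans ?_ h4
    exact Nat.mul_le_mul_right _ (Nat.mul_le_mul_left _ hlog)
  -- the product
  have hprod : 2 ^ 83 * (M * (Nat.log 2 g + 1) * (π + 1) *
      ((g + n ^ 2) * (κ * g + n ^ 2) ^ 2)) < n ^ 8 := by
    have hl : ((Nat.log 2 g + 1 : ℕ) : ℝ) ≤ 4 * (L + 1) := by exact_mod_cast hlog
    have hN1 : (n : ℝ) ^ 2 ≤ N ^ (1 + γ) := by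
      rw [← hN]
      calc N = N ^ (1 : ℝ) := (Real.rpow_one N).symm
        _ ≤ N ^ (1 + γ) := Real.rpow_le_rpow_of_exponent_le hn1 (by linarith)
    have hg3 : ((g : ℝ) + n ^ 2) ≤ 2 * N ^ (1 + γ) := by linarith
    have hr3 : ((κ : ℝ) * g + n ^ 2) ≤ (κ + 1) * N ^ (1 + γ) := by
      have : (κ : ℝ) * g ≤ κ * N ^ (1 + γ) := mul_le_mul_of_nonneg_left hg2 (Nat.cast_nonneg _)
      linarith
    have e1 : N ^ (4 : ℝ) = N ^ ε * (N ^ (1 - 3 * γ - ε) * N ^ (1 + γ) * (N ^ (1 + γ)) ^ 2) := by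
      rw [← Real.rpow_natCast (N ^ (1 + γ)) 2, ← Real.rpow_mul hn0.le, ← Real.rpow_add hn0,
        ← Real.rpow_add hn0, ← Real.rpow_add hn0]
      congr 1
      push_cast
      ring
    have e2 : N ^ (4 : ℝ) = (n : ℝ) ^ 8 := by
      rw [show N ^ (4 : ℝ) = N ^ 4 by rw [← Real.rpow_natCast N 4]; norm_num, hN]
      ring
    have h9 : (2 : ℝ) ^ 83 * (M * ((Nat.log 2 g + 1 : ℕ) : ℝ) * (π + 1) *
        ((g + n ^ 2) * (κ * g + n ^ 2) ^ 2)) < (n : ℝ) ^ 8 := by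
      have hpos : 0 < N ^ (1 - 3 * γ - ε) * N ^ (1 + γ) * (N ^ (1 + γ)) ^ 2 := by positivity
      calc (2 : ℝ) ^ 83 * (M * ((Nat.log 2 g + 1 : ℕ) : ℝ) * (π + 1) *
            ((g + n ^ 2) * (κ * g + n ^ 2) ^ 2))
          ≤ 2 ^ 83 * (N ^ (1 - 3 * γ - ε) * (4 * (L + 1)) * (π + 1) *
              ((2 * N ^ (1 + γ)) * ((κ + 1) * N ^ (1 + γ)) ^ 2)) := by
            gcongr
        _ = (2 ^ 86 * (π + 1) * (κ + 1) ^ 2 * ((L : ℝ) + 1) ^ 1) *
              (N ^ (1 - 3 * γ - ε) * N ^ (1 + γ) * (N ^ (1 + γ)) ^ 2) := by ring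
        _ < ((2 ^ 86 * (π + 1) * (κ + 1) ^ 2 + 1) * ((L : ℝ) + 1) ^ 1) *
              (N ^ (1 - 3 * γ - ε) * N ^ (1 + γ) * (N ^ (1 + γ)) ^ 2) := by
            apply mul_lt_mul_of_pos_right _ hpos
            have : (0 : ℝ) < (L + 1) ^ 1 := by positivity
            linarith
        _ ≤ N ^ ε * (N ^ (1 - 3 * γ - ε) * N ^ (1 + γ) * (N ^ (1 + γ)) ^ 2) :=
            mul_le_mul_of_nonneg_right h2 hpos.le
        _ = (n : ℝ) ^ 8 := by rw [← e1, e2]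
    exact_mod_cast h9
  obtain ⟨i, hi⟩ := mm_random_universal hn20 hnπ hMpos hdep hprod C (by
    intro i
    obtain ⟨h3, h4⟩ := hC i
    have h5 : (C i).size ≤ g := by
      rw [hg]
      exact Nat.le_floor h4
    exact ⟨(reads_le_of_arity (C i) κ h3).trans (Nat.mul_le_mul_left _ h5), h5⟩) hc
  refine ⟨i, fun W _ H hW hE => ?_⟩
  rw [← hd]
  refine hi W H ?_ ?_
  · rw [hM]
    exact Nat.le_floor hW
  · rw [hM]
    exact Nat.le_floor hE

end Pool.Agent.U514.MM
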