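import Mathlib
import Pool.Agent.U514.MM.Main

/-!
# Matrix multiplication circuits in the `d`-dimensional space
-/

set_option autoImplicit false

namespace Pool.Agent.U514.MM

open Finset
open Pool.Agent.H522R2 Pool.Agent.H522R2.Circuit Pool.Agent.H522R3.TW

open Classical in
/-- The total length of the wires between gates, if the gate `g` is at the point `pos g` of the
lattice `ℤ ^ d`: the sum of `|pos h - pos g|₁` over all pairs of a gate `g` and a gate `h` which is an
input of `g`. -/
noncomputable def wireLength {F V : Type} {d : ℕ} (C : Circuit F V)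
    (pos : {k : Fin C.nodes // IsGate C k} → Fin d → ℤ) : ℕ :=
  ∑ p ∈ (univ : Finset ({k : Fin C.nodes // IsGate C k} × {k : Fin C.nodes // IsGate C k})).filter
    (fun p => Feeds C p.1.1 p.2.1), ∑ i, (pos p.1 i - pos p.2 i).natAbs

lemma div_succ_ne {L a : ℤ} (hL : 0 < L) (h : a / L ≠ (a + 1) / L) : L ∣ a + 1 := by
  by_contra hcon
  apply h
  have h1 : (a + 1) % L ≠ 0 := fun h1 => hcon (Int.dvd_of_emod_eq_zero h1)
  have h2 := Int.emod_nonneg (a + 1) hL.ne'
  have h3 := Int.emod_lt_of_pos (a + 1) hL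
  have h4 := Int.mul_ediv_add_emod (a + 1) L
  have h5 : a / L = (a + 1) / L ∧ a % L = (a + 1) % L - 1 := by
    rw [Int.ediv_emod_unique hL]
    refine ⟨by linarith, ?_, by linarith⟩
    omega
  exact h5.1

lemma count_sep_aux (L : ℕ) (hL : 0 < L) (x : ℤ) (n : ℕ) :
    ((range L).filter fun v : ℕ => (x + v) / (L : ℤ) ≠ (x + n + v) / (L : ℤ)).card ≤ n := by
  have hLZ : (0 : ℤ) < L := by exact_mod_cast hL
  induction n with
  | zero => simp
  | succ n ih =>
    have h1 : ((range L).filter fun v : ℕ => (x + v) / (L : ℤ) ≠ (x + (n + 1 : ℕ) + v) / (L : ℤ)) ⊆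
        ((range L).filter fun v : ℕ => (x + v) / (L : ℤ) ≠ (x + n + v) / (L : ℤ)) ∪
        ((range L).filter fun v : ℕ =>
          (x + n + v) / (L : ℤ) ≠ (x + (n + 1 : ℕ) + v) / (L : ℤ)) := by
      intro v hv
      rw [mem_filter] at hv
      rw [mem_union, mem_filter, mem_filter]
      by_cases h : (x + v) / (L : ℤ) = (x + n + v) / (L : ℤ)
      · right
        rw [← h]
        exact hv
      · left
        exact ⟨hv.1, h⟩
    have h2 : ((range L).filter fun v : ℕ =>
        (x + n + v) / (L : ℤ) ≠ (x + (n + 1 : ℕ) + v) / (L : ℤ)).card ≤ 1 := by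
      rw [card_le_one]
      intro v hv v' hv'
      rw [mem_filter, mem_range] at hv hv'
      have e : ∀ u : ℕ, x + ((n + 1 : ℕ) : ℤ) + (u : ℤ) = (x + n + u) + 1 := by
        intro u
        push_cast
        ring
      rw [e] at hv hv'
      have d1 := div_succ_ne hLZ hv.2
      have d2 := div_succ_ne hLZ hv'.2
      have d3 : (L : ℤ) ∣ (v : ℤ) - v' := by
        have := dvd_sub d1 d2
        have e2 : x + n + v + 1 - (x + n + v' + 1) = (v : ℤ) - v' := by ring
        rwa [e2] at this
      have d4 : (v : ℤ) - v' = 0 := by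
        apply Int.eq_zero_of_abs_lt_dvd d3
        rw [abs_lt]
        constructor
        · have : ((v' : ℤ)) < L := by exact_mod_cast hv'.1
          have : (0 : ℤ) ≤ v := Int.natCast_nonneg v
          linarith
        · have : ((v : ℤ)) < L := by exact_mod_cast hv.1
          have : (0 : ℤ) ≤ v' := Int.natCast_nonneg v'
          linarith
      omega
    have h3 := card_le_card h1
    have h4 := card_union_le ((range L).filter fun v : ℕ =>
      (x + v) / (L : ℤ) ≠ (x + n + v) / (L : ℤ)) ((range L).filter fun v : ℕ =>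
          (x + n + v) / (L : ℤ) ≠ (x + (n + 1 : ℕ) + v) / (L : ℤ))
    omega

lemma count_sep (L : ℕ) (hL : 0 < L) (x y : ℤ) :
    ((range L).filter fun v : ℕ => (x + v) / (L : ℤ) ≠ (y + v) / (L : ℤ)).card ≤
      (x - y).natAbs := by
  rcases le_total x y with h | h
  · obtain ⟨n, hn⟩ := Int.eq_ofNat_of_zero_le (sub_nonneg.2 h)
    have hy : y = x + n := by omega
    have e : (x - y).natAbs = n := by omega
    rw [e, hy]
    exact count_sep_aux L hL x n
  · obtain ⟨n, hn⟩ := Int.eq_ofNat_of_zero_le (sub_nonneg.2 h)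
    have hy : x = y + n := by omega
    have e : (x - y).natAbs = n := by omega
    rw [e, hy]
    have h1 := count_sep_aux L hL y n
    refine le_trans (le_of_eq ?_) h1
    congr 1
    ext v
    simp only [mem_filter, ne_comm]

lemma count_sep_pi {d : ℕ} (L : ℕ) (hL : 0 < L) (x y : Fin d → ℤ) :
    ((range L).filter fun v : ℕ => (fun i => (x i + v) / (L : ℤ)) ≠
      fun i => (y i + v) / (L : ℤ)).card ≤ ∑ i, (x i - y i).natAbs := by
  classical
  calc _ ≤ (univ.biUnion fun i : Fin d =>
        (range L).filter fun v : ℕ => (x i + v) / (L : ℤ) ≠ (y i + v) / (L : ℤ)).card := by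
        apply card_le_card
        intro v hv
        rw [mem_filter] at hv
        obtain ⟨i, hi⟩ := Function.ne_iff.1 hv.2
        exact mem_biUnion.2 ⟨i, mem_univ i, mem_filter.2 ⟨hv.1, hi⟩⟩
    _ ≤ ∑ i, ((range L).filter fun v : ℕ =>
        (x i + v) / (L : ℤ) ≠ (y i + v) / (L : ℤ)).card := card_biUnion_le
    _ ≤ _ := sum_le_sum fun i _ => count_sep L hL (x i) (y i)

section blocks

variable {F : Type} [Field F] {m d : ℕ}

open Classical in
/-- One distribution of the gates over blocks of at most `K` gates. -/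
theorem blocks_bound {ι : Type} (C : Circuit F (Vars m)) (hC : ∀ i j, ∃ k, C.poly k = entry F m i j)
    (f : {k : Fin C.nodes // IsGate C k} → ι) (K : ℕ)
    (hK : ∀ (β : ι) (s : Finset {k : Fin C.nodes // IsGate C k}), (∀ g ∈ s, f g = β) →
      s.card ≤ K) :
    m ^ 4 ≤ 2 * K * readCount C + 4 * m ^ 2 *
      ((univ : Finset ({k : Fin C.nodes // IsGate C k} × {k : Fin C.nodes // IsGate C k})).filter
        (fun p => Feeds C p.1.1 p.2.1 ∧ f p.1 ≠ f p.2)).card := by
  obtain ⟨f', hf'⟩ : ∃ f' : Fin C.nodes → Option ι, ∀ k, f' k =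
    if h : IsGate C k then some (f ⟨k, h⟩) else none := ⟨_, fun _ => rfl⟩
  let T : Finset (Option ι) := univ.image f'
  let b : Fin C.nodes → {x // x ∈ T} := fun k => ⟨f' k, mem_image_of_mem _ (mem_univ _)⟩
  have h1 := block_bound C b hC
  have hb : ∀ g h : {k : Fin C.nodes // IsGate C k}, b g.1 = b h.1 ↔ f g = f h := by
    intro g h
    simp only [b, Subtype.mk.injEq, hf']
    rw [dif_pos g.2, dif_pos h.2]
    simp
  obtain ⟨s, hs⟩ : ∃ s : {x // x ∈ T} → Finset (Fin C.nodes), ∀ β, s β =
    univ.filter fun g => IsGate C g ∧ b g = β := ⟨_, fun _ => rfl⟩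
  have hsK : ∀ β, (s β).card ≤ K := by
    intro β
    by_cases hne : (s β).Nonempty
    · obtain ⟨g₀, hg₀⟩ := hne
      rw [hs, mem_filter] at hg₀
      obtain ⟨-, hg1, hg2⟩ := hg₀
      refine le_trans ?_ (hK (f ⟨g₀, hg1⟩) (univ.filter fun g => f g = f ⟨g₀, hg1⟩)
        fun g hg => (mem_filter.1 hg).2)
      rw [← card_map (Function.Embedding.subtype (fun k => IsGate C k))]
      apply card_le_card
      intro g hg
      rw [hs, mem_filter] at hg
      obtain ⟨-, h3, h4⟩ := hg
      rw [mem_map]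
      refine ⟨⟨g, h3⟩, ?_, rfl⟩
      rw [mem_filter]
      refine ⟨mem_univ _, ?_⟩
      exact (hb ⟨g, h3⟩ ⟨g₀, hg1⟩).1 (h4.trans hg2.symm)
    · rw [not_nonempty_iff_eq_empty] at hne
      rw [hne, card_empty]
      exact Nat.zero_le _
  have hAB : ∀ β, 4 * (blockA C b β * blockB C b β) ≤ 2 * K * ∑ g ∈ s β, (readSet C g).card := by
    intro β
    have e1 : blockA C b β = (univ.filter fun r : Fin m × Fin m =>
        ∃ g ∈ s β, Reads C g (.inl r)).card := by
      rw [blockA, Nat.card_eq_fintype_card, Fintype.card_subtype]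
      congr 1
      ext r
      simp only [mem_filter, mem_univ, true_and, hs]
      constructor
      · rintro ⟨g, h3, h4⟩
        obtain ⟨h, h5, h6⟩ := h4
        exact ⟨g, ⟨isGate_of_feeds h5, h3⟩, h, h5, h6⟩
      · rintro ⟨g, ⟨_, h3⟩, h4⟩
        exact ⟨g, h3, h4⟩
    have e2 : blockB C b β = (univ.filter fun r : Fin m × Fin m =>
        ∃ g ∈ s β, Reads C g (.inr r)).card := by
      rw [blockB, Nat.card_eq_fintype_card, Fintype.card_subtype]
      congr 1
      ext r
      simp only [mem_filter, mem_univ, true_and, hs]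
      constructor
      · rintro ⟨g, h3, h4⟩
        obtain ⟨h, h5, h6⟩ := h4
        exact ⟨g, ⟨isGate_of_feeds h5, h3⟩, h, h5, h6⟩
      · rintro ⟨g, ⟨_, h3⟩, h4⟩
        exact ⟨g, h3, h4⟩
    have h2 := card_RA_RB C (s β)
    rw [← e1, ← e2] at h2
    have h3 : ∑ g ∈ s β, (readSet C g).card ≤ 2 * K := by
      calc ∑ g ∈ s β, (readSet C g).card ≤ ∑ g ∈ s β, 2 :=
            sum_le_sum fun g _ => card_readSet_le C g
        _ = 2 * (s β).card := by rw [sum_const, smul_eq_mul, mul_comm]
        _ ≤ _ := Nat.mul_le_mul_left _ (hsK β)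
    obtain ⟨S, hS⟩ : ∃ S, S = ∑ g ∈ s β, (readSet C g).card := ⟨_, rfl⟩
    rw [← hS] at h2 h3 ⊢
    have h4 : 4 * (blockA C b β * blockB C b β) ≤ S * S := by
      obtain ⟨x, hx⟩ : ∃ x, x = blockA C b β := ⟨_, rfl⟩
      obtain ⟨y, hy⟩ : ∃ y, y = blockB C b β := ⟨_, rfl⟩
      rw [← hx, ← hy] at h2 ⊢
      have h5 : (x + y) * (x + y) ≤ S * S := Nat.mul_le_mul h2 h2
      refine le_trans ?_ h5
      zify
      nlinarith [sq_nonneg ((x : ℤ) - y)]
    exact h4.trans (Nat.mul_le_mul_right _ h3)
  have hABs : 4 * ∑ β, blockA C b β * blockB C b β ≤ 2 * K * readCount C := by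
    rw [mul_sum]
    refine (sum_le_sum fun β _ => hAB β).trans ?_
    rw [← mul_sum]
    apply Nat.mul_le_mul_left
    rw [readCount_eq]
    calc ∑ β, ∑ g ∈ s β, (readSet C g).card
        ≤ ∑ β, ∑ g ∈ univ.filter (fun g => b g = β), (readSet C g).card := by
          apply sum_le_sum
          intro β _
          apply sum_le_sum_of_subset
          intro g hg
          rw [hs, mem_filter] at hg
          exact mem_filter.2 ⟨mem_univ _, hg.2.2⟩
      _ = ∑ g, (readSet C g).card :=
          sum_fiberwise_of_maps_to (fun g _ => mem_univ (b g)) _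
  have hIn : ∑ β, blockIn C b β ≤
      ((univ : Finset ({k : Fin C.nodes // IsGate C k} × {k : Fin C.nodes // IsGate C k})).filter
        (fun p => Feeds C p.1.1 p.2.1 ∧ f p.1 ≠ f p.2)).card := by
    have h2 : ∀ β, blockIn C b β ≤
        (((univ : Finset ({k : Fin C.nodes // IsGate C k} ×
          {k : Fin C.nodes // IsGate C k})).filter
        (fun p => Feeds C p.1.1 p.2.1 ∧ f p.1 ≠ f p.2)).filter (fun p => b p.2.1 = β)).card := by
      intro β
      rw [blockIn, Nat.card_eq_fintype_card, Fintype.card_subtype]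
      refine le_trans (card_le_card (t := ((((univ : Finset ({k : Fin C.nodes // IsGate C k} ×
          {k : Fin C.nodes // IsGate C k})).filter
        (fun p => Feeds C p.1.1 p.2.1 ∧ f p.1 ≠ f p.2)).filter
          (fun p => b p.2.1 = β)).image (fun p => p.1.1))) ?_) card_image_le
      intro h hh
      rw [mem_filter] at hh
      obtain ⟨-, h3, h4, g, h5, h6⟩ := hh
      rw [mem_image]
      refine ⟨(⟨h, h3⟩, ⟨g, isGate_of_feeds h6⟩), ?_, rfl⟩
      rw [mem_filter, mem_filter]
      refine ⟨⟨mem_univ _, h6, ?_⟩, h5⟩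
      intro h7
      apply h4
      rw [← h5]
      exact (hb ⟨h, h3⟩ ⟨g, isGate_of_feeds h6⟩).2 h7
    refine (sum_le_sum fun β _ => h2 β).trans (le_of_eq ?_)
    exact (card_eq_sum_card_fiberwise (fun p _ => mem_univ (b p.2.1))).symm
  refine h1.trans (Nat.add_le_add hABs (Nat.mul_le_mul_left _ hIn))

open Classical in
/-- **Circuits in the `d`-dimensional space.** -/
theorem wire_bound (C : Circuit F (Vars m)) (hC : ∀ i j, ∃ k, C.poly k = entry F m i j)
    (pos : {k : Fin C.nodes // IsGate C k} → Fin d → ℤ) (hpos : Function.Injective pos) (L : ℕ)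
    (hL : 0 < L) :
    L * m ^ 4 ≤ 2 * L ^ (d + 1) * readCount C + 4 * m ^ 2 * wireLength C pos := by
  have hLZ : (0 : ℤ) < L := by exact_mod_cast hL
  obtain ⟨P, hP⟩ : ∃ P, P = (univ : Finset ({k : Fin C.nodes // IsGate C k} ×
    {k : Fin C.nodes // IsGate C k})).filter (fun p => Feeds C p.1.1 p.2.1) := ⟨_, rfl⟩
  have h1 : ∀ v ∈ range L, m ^ 4 ≤ 2 * L ^ d * readCount C + 4 * m ^ 2 *
      (P.filter fun p => (fun i => (pos p.1 i + v) / (L : ℤ)) ≠
        fun i => (pos p.2 i + v) / (L : ℤ)).card := by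
    intro v _
    have h2 := blocks_bound C hC (fun g => fun i => (pos g i + v) / (L : ℤ)) (L ^ d) (by
      intro β s hs
      have h3 : Fintype.card (Fin d → Fin L) = L ^ d := by simp
      rw [← h3, ← card_univ]
      apply card_le_card_of_injOn (fun g => fun i => (⟨((pos g i + v) % (L : ℤ)).toNat, by
        have h4 := Int.emod_nonneg (pos g i + v) hLZ.ne'
        have h5 := Int.emod_lt_of_pos (pos g i + v) hLZ
        omega⟩ : Fin L))
      · intro g _
        exact mem_coe.2 (mem_univ _)
      · intro g hg g' hg' h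
        apply hpos
        funext i
        have h4 := congrFun (hs g (mem_coe.1 hg)) i
        have h5 := congrFun (hs g' (mem_coe.1 hg')) i
        have h6 := congrArg Fin.val (congrFun h i)
        simp only at h4 h5 h6
        have h7 := Int.emod_nonneg (pos g i + v) hLZ.ne'
        have h8 := Int.emod_nonneg (pos g' i + v) hLZ.ne'
        have h9 : (pos g i + v) % (L : ℤ) = (pos g' i + v) % (L : ℤ) := by omega
        have h10 := Int.mul_ediv_add_emod (pos g i + v) L
        have h11 := Int.mul_ediv_add_emod (pos g' i + v) L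
        rw [h4] at h10
        rw [h5] at h11
        linarith)
    refine h2.trans (Nat.add_le_add_left (Nat.mul_le_mul_left _ (card_le_card ?_)) _)
    intro p hp
    have hp' := (mem_filter (s := univ)
      (p := fun p : {k : Fin C.nodes // IsGate C k} × {k : Fin C.nodes // IsGate C k} =>
        Feeds C p.1.1 p.2.1 ∧ (fun i => (pos p.1 i + (v : ℤ)) / (L : ℤ)) ≠
          fun i => (pos p.2 i + (v : ℤ)) / (L : ℤ))).1 (by convert hp)
    rw [hP, mem_filter, mem_filter]
    exact ⟨⟨mem_univ _, hp'.2.1⟩, hp'.2.2⟩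
  have h2 : ∑ v ∈ range L, m ^ 4 ≤ ∑ v ∈ range L, (2 * L ^ d * readCount C + 4 * m ^ 2 *
      (P.filter fun p => (fun i => (pos p.1 i + v) / (L : ℤ)) ≠
        fun i => (pos p.2 i + v) / (L : ℤ)).card) := sum_le_sum h1
  rw [sum_const, card_range, smul_eq_mul, sum_add_distrib, sum_const, card_range, smul_eq_mul,
    ← mul_sum] at h2
  have h3 : ∑ v ∈ range L, (P.filter fun p => (fun i => (pos p.1 i + v) / (L : ℤ)) ≠
      fun i => (pos p.2 i + v) / (L : ℤ)).card ≤ wireLength C pos := by
    have h4 : ∀ v ∈ range L, (P.filter fun p => (fun i => (pos p.1 i + (v : ℤ)) / (L : ℤ)) ≠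
        fun i => (pos p.2 i + v) / (L : ℤ)).card =
        ∑ p ∈ P, if (fun i => (pos p.1 i + (v : ℤ)) / (L : ℤ)) ≠
          (fun i => (pos p.2 i + v) / (L : ℤ)) then 1 else 0 := by
      intro v _
      rw [card_filter]
    rw [sum_congr rfl h4, sum_comm, wireLength, ← hP]
    apply sum_le_sum
    intro p _
    rw [← card_filter]
    exact count_sep_pi L hL (pos p.1) (pos p.2)
  refine h2.trans ?_
  refine Nat.add_le_add (le_of_eq ?_) (Nat.mul_le_mul_left _ h3)
  ring

end blocks

end Pool.Agent.U514.MM
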