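import Mathlib
import Pool.Agent.U514.MM.Wire

/-!
# Matrix multiplication circuits in the `d`-dimensional space: the lower bound for gates plus wires
-/

set_option autoImplicit false

namespace Pool.Agent.U514.MM

open Finset
open Pool.Agent.H522R2 Pool.Agent.H522R2.Circuit Pool.Agent.H522R3.TW

variable {F : Type} [Field F] {m d : ℕ}

theorem wire_product (C : Circuit F (Vars m)) (hC : ∀ i j, ∃ k, C.poly k = entry F m i j)
    (pos : {k : Fin C.nodes // IsGate C k} → Fin d → ℤ) (hpos : Function.Injective pos)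
    (hd : 1 ≤ d) :
    m ^ (2 * d + 4) ≤ 2 ^ (4 * d + 2) * (readCount C * (C.size + wireLength C pos) ^ d) := by
  classical
  obtain ⟨R, hR⟩ : ∃ R, R = readCount C := ⟨_, rfl⟩
  obtain ⟨Λ, hΛ⟩ : ∃ Λ, Λ = wireLength C pos := ⟨_, rfl⟩
  obtain ⟨s, hs⟩ : ∃ s, s = C.size := ⟨_, rfl⟩
  have hsm : m ^ 2 ≤ s := by rw [hs]; exact size_ge C hC
  have hwb : ∀ L, 0 < L → L * m ^ 4 ≤ 2 * L ^ (d + 1) * R + 4 * m ^ 2 * Λ := by
    intro L hL
    rw [hR, hΛ]
    exact wire_bound C hC pos hpos L hL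
  have hRm : m ^ 2 ≤ R := by rw [hR]; exact reads_lower C hC
  rw [← hR, ← hs, ← hΛ]
  rcases Nat.eq_zero_or_pos m with hm | hm
  · have : m ^ (2 * d + 4) = 0 := by
      rw [hm]
      exact zero_pow (by omega)
    rw [this]
    exact Nat.zero_le _
  have hR0 : 0 < R := lt_of_lt_of_le (by positivity) hRm
  have hEm : (m ^ 2) ^ d ≤ (s + Λ) ^ d := Nat.pow_le_pow_left (by omega) d
  by_cases h4 : 4 * R ≤ m ^ 4
  · -- the side of the cubes
    obtain ⟨L, hL0, hL1, hL2⟩ : ∃ L, 0 < L ∧ 4 * R * L ^ d ≤ m ^ 4 ∧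
        m ^ 4 < 4 * R * (L + 1) ^ d := by
      have hP : ∃ L, m ^ 4 < 4 * R * (L + 1) ^ d := by
        refine ⟨m ^ 4, ?_⟩
        have h1 : m ^ 4 + 1 ≤ (m ^ 4 + 1) ^ d := Nat.le_self_pow (by omega) _
        have h2 : (m ^ 4 + 1) ^ d ≤ 4 * R * (m ^ 4 + 1) ^ d :=
          Nat.le_mul_of_pos_left _ (by positivity)
        omega
      refine ⟨Nat.find hP, ?_, ?_, Nat.find_spec hP⟩
      · rw [Nat.pos_iff_ne_zero]
        intro h0
        have := Nat.find_spec hP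
        rw [h0] at this
        simp at this
        omega
      · have h0 : 0 < Nat.find hP := by
          rw [Nat.pos_iff_ne_zero]
          intro h0
          have := Nat.find_spec hP
          rw [h0] at this
          simp at this
          omega
        have h1 := Nat.find_min hP (m := Nat.find hP - 1) (by omega)
        rw [not_lt, Nat.sub_add_cancel h0] at h1
        exact h1
    have h5 : m ^ 4 ≤ 4 * R * 2 ^ d * L ^ d := by
      calc m ^ 4 ≤ 4 * R * (L + 1) ^ d := hL2.le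
        _ ≤ 4 * R * (2 * L) ^ d := Nat.mul_le_mul_left _ (Nat.pow_le_pow_left (by omega) d)
        _ = _ := by rw [mul_pow]; ring
    have h6 := hwb L hL0
    have h7 : 2 * (2 * L ^ (d + 1) * R) ≤ L * m ^ 4 := by
      calc 2 * (2 * L ^ (d + 1) * R) = L * (4 * R * L ^ d) := by rw [pow_succ]; ring
        _ ≤ L * m ^ 4 := Nat.mul_le_mul_left _ hL1
    have h8 : L * m ^ 4 ≤ 8 * m ^ 2 * Λ := by
      have e : 8 * m ^ 2 * Λ = 2 * (4 * m ^ 2 * Λ) := by ring
      rw [e]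
      omega
    have h9 : m ^ 2 * L ≤ 8 * Λ := by
      have : m ^ 2 * (m ^ 2 * L) ≤ m ^ 2 * (8 * Λ) := by
        calc m ^ 2 * (m ^ 2 * L) = L * m ^ 4 := by ring
          _ ≤ 8 * m ^ 2 * Λ := h8
          _ = _ := by ring
      exact Nat.le_of_mul_le_mul_left this (by positivity)
    calc m ^ (2 * d + 4) = (m ^ 2) ^ d * m ^ 4 := by rw [pow_add, pow_mul]
      _ ≤ (m ^ 2) ^ d * (4 * R * 2 ^ d * L ^ d) := Nat.mul_le_mul_left _ h5
      _ = 4 * 2 ^ d * (R * (m ^ 2 * L) ^ d) := by rw [mul_pow]; ring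
      _ ≤ 4 * 2 ^ d * (R * (8 * Λ) ^ d) :=
          Nat.mul_le_mul_left _ (Nat.mul_le_mul_left _ (Nat.pow_le_pow_left h9 d))
      _ = 4 * (2 ^ d * 8 ^ d) * (R * Λ ^ d) := by rw [mul_pow]; ring
      _ = 2 ^ (4 * d + 2) * (R * Λ ^ d) := by
          rw [← mul_pow, show 2 * 8 = 2 ^ 4 by norm_num, ← pow_mul, pow_add]
          ring
      _ ≤ _ := Nat.mul_le_mul_left _ (Nat.mul_le_mul_left _
          (Nat.pow_le_pow_left (Nat.le_add_left _ _) d))
  · push Not at h4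
    calc m ^ (2 * d + 4) = m ^ 4 * (m ^ 2) ^ d := by rw [pow_add, pow_mul, mul_comm]
      _ ≤ (4 * R) * (s + Λ) ^ d := Nat.mul_le_mul h4.le hEm
      _ = 4 * (R * (s + Λ) ^ d) := by ring
      _ ≤ _ := by
          apply Nat.mul_le_mul_right
          calc 4 = 2 ^ 2 := by norm_num
            _ ≤ 2 ^ (4 * d + 2) := Nat.pow_le_pow_right (by norm_num) (by omega)

theorem wire_cost (C : Circuit F (Vars m)) (hC : ∀ i j, ∃ k, C.poly k = entry F m i j)
    (pos : {k : Fin C.nodes // IsGate C k} → Fin d → ℤ) (hpos : Function.Injective pos)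
    (hd : 1 ≤ d) :
    m ^ (2 * d + 4) ≤ (16 * (C.size + wireLength C pos)) ^ (d + 1) := by
  have h1 := wire_product C hC pos hpos hd
  have h2 := reads_le_size C
  obtain ⟨E, hE⟩ : ∃ E, E = C.size + wireLength C pos := ⟨_, rfl⟩
  rw [← hE] at h1 ⊢
  have h3 : readCount C ≤ 2 * E := by omega
  calc m ^ (2 * d + 4) ≤ 2 ^ (4 * d + 2) * (readCount C * E ^ d) := h1
    _ ≤ 2 ^ (4 * d + 2) * ((2 * E) * E ^ d) :=
        Nat.mul_le_mul_left _ (Nat.mul_le_mul_right _ h3)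
    _ = 2 ^ (4 * d + 3) * E ^ (d + 1) := by ring
    _ ≤ 2 ^ (4 * (d + 1)) * E ^ (d + 1) :=
        Nat.mul_le_mul_right _ (Nat.pow_le_pow_right (by norm_num) (by omega))
    _ = _ := by rw [mul_pow, show 16 = 2 ^ 4 by norm_num, ← pow_mul]

theorem wire_real (C : Circuit F (Vars m)) (hC : ∀ i j, ∃ k, C.poly k = entry F m i j)
    (pos : {k : Fin C.nodes // IsGate C k} → Fin d → ℤ) (hpos : Function.Injective pos)
    (hd : 1 ≤ d) :
    (m : ℝ) ^ (2 + 2 / ((d : ℝ) + 1)) ≤ 16 * ((C.size + wireLength C pos : ℕ) : ℝ) := by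
  have h1 := wire_cost C hC pos hpos hd
  have h2 : (m : ℝ) ^ (2 * d + 4) ≤
      (16 * ((C.size + wireLength C pos : ℕ) : ℝ)) ^ (d + 1) := by exact_mod_cast h1
  have hd0 : (0 : ℝ) < (d : ℝ) + 1 := by positivity
  have e1 : ((m : ℝ) ^ (2 + 2 / ((d : ℝ) + 1))) ^ (d + 1) = (m : ℝ) ^ (2 * d + 4) := by
    rw [← Real.rpow_natCast ((m : ℝ) ^ (2 + 2 / ((d : ℝ) + 1))) (d + 1),
      ← Real.rpow_mul (Nat.cast_nonneg _), ← Real.rpow_natCast (m : ℝ) (2 * d + 4)]
    congr 1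
    push_cast
    field_simp
    ring
  rw [← e1] at h2
  exact le_of_pow_le_pow_left₀ (Nat.succ_ne_zero d) (by positivity) h2

end Pool.Agent.U514.MM
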