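import Mathlib
import Pool.Agent.U514.MM.WireCor

/-!
# Matrix multiplication circuits in the `d`-dimensional space: upper bounds
-/

set_option autoImplicit false

namespace Pool.Agent.U514.MM

open Finset
open Pool.Agent.H522R2 Pool.Agent.H522R2.Circuit Pool.Agent.H522R3.TW

section general

variable {F V : Type} {d : ℕ}

open Classical in
theorem wireLength_le (C : Circuit F V) (pos : {k : Fin C.nodes // IsGate C k} → Fin d → ℤ)
    (B : ℕ) (hB : ∀ h g : {k : Fin C.nodes // IsGate C k}, Feeds C h.1 g.1 →
      ∑ i, (pos h i - pos g i).natAbs ≤ B) : wireLength C pos ≤ 2 * C.size * B := by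
  have h1 : ((univ : Finset ({k : Fin C.nodes // IsGate C k} ×
      {k : Fin C.nodes // IsGate C k})).filter (fun p => Feeds C p.1.1 p.2.1)).card ≤
      2 * C.size := by
    have h2 : C.size = (univ : Finset {k : Fin C.nodes // IsGate C k}).card := by
      rw [size_eq, Nat.card_eq_fintype_card, card_univ]
    rw [h2, mul_comm]
    rw [card_eq_sum_card_fiberwise (f := fun p => p.2) (t := univ) (fun p _ => mem_univ _)]
    refine (sum_le_card_nsmul _ _ 2 ?_).trans (le_of_eq (smul_eq_mul _ _))
    intro g _
    obtain ⟨i, j, hij⟩ := g.2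
    have hf : ∀ h, Feeds C h g.1 → C.up g.1 i = h ∨ C.up g.1 j = h := by
      intro h hh
      rcases hij with hij | hij
      · exact (feeds_add hij).1 hh
      · exact (feeds_mul hij).1 hh
    have h3 : (((univ : Finset ({k : Fin C.nodes // IsGate C k} ×
        {k : Fin C.nodes // IsGate C k})).filter
          (fun p => Feeds C p.1.1 p.2.1)).filter (fun p => p.2 = g)).card ≤
        ({C.up g.1 i, C.up g.1 j} : Finset (Fin C.nodes)).card := by
      apply card_le_card_of_injOn (fun p => p.1.1)
      · intro p hp
        rw [mem_coe, mem_filter, mem_filter] at hp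
        have h4 := hf p.1.1 (by rw [← hp.2]; exact hp.1.2)
        rw [mem_coe, mem_insert, mem_singleton]
        rcases h4 with h4 | h4
        · exact Or.inl h4.symm
        · exact Or.inr h4.symm
      · intro p hp p' hp' h
        rw [mem_coe, mem_filter] at hp hp'
        exact Prod.ext (Subtype.ext h) (hp.2.trans hp'.2.symm)
    exact h3.trans card_le_two
  unfold wireLength
  calc _ ≤ ∑ p ∈ (univ : Finset ({k : Fin C.nodes // IsGate C k} ×
        {k : Fin C.nodes // IsGate C k})).filter (fun p => Feeds C p.1.1 p.2.1), B := by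
        apply sum_le_sum
        intro p hp
        exact hB p.1 p.2 (mem_filter.1 hp).2
    _ ≤ _ := by
        rw [sum_const, smul_eq_mul]
        exact Nat.mul_le_mul_right _ h1

/-- A circuit of size at most `K ^ d` fits into a cube of side `K`. -/
theorem exists_cube (C : Circuit F V) (K : ℕ) (hK : C.size ≤ K ^ d) :
    ∃ pos : {k : Fin C.nodes // IsGate C k} → Fin d → ℤ, Function.Injective pos ∧
      wireLength C pos ≤ 2 * C.size * (d * K) := by
  classical
  have h1 : Fintype.card {k : Fin C.nodes // IsGate C k} ≤ Fintype.card (Fin d → Fin K) := by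
    rw [Fintype.card_fun, Fintype.card_fin, Fintype.card_fin, ← Nat.card_eq_fintype_card,
      ← size_eq]
    exact hK
  obtain ⟨e⟩ := Function.Embedding.nonempty_of_card_le h1
  refine ⟨fun g i => ((e g i : ℕ) : ℤ), ?_, ?_⟩
  · intro g h hgh
    apply e.injective
    funext i
    have := congrFun hgh i
    simp only [Nat.cast_inj] at this
    exact Fin.ext this
  · apply wireLength_le
    intro h g _
    calc ∑ i, (((e h i : ℕ) : ℤ) - ((e g i : ℕ) : ℤ)).natAbs ≤ ∑ i : Fin d, K := by
          apply sum_le_sum
          intro i _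
          have h2 := (e h i).2
          have h3 := (e g i).2
          omega
      _ = d * K := by rw [sum_const, card_univ, Fintype.card_fin, smul_eq_mul]

end general

section line

variable (F : Type) [Field F] (m : ℕ)

/-- the number of the step of the direct algorithm to which the node `k` belongs -/
def stp (k : ℕ) : ℕ := (k - (2 * m ^ 2 + 1)) / 2

/-- the gates of the direct algorithm -/
def lineGate (hm : 0 < m) (k : ℕ) : Gate F (Vars m) k :=
  if h1 : k < m ^ 2 then
    .var (.inl (⟨k / m, by rw [Nat.div_lt_iff_lt_mul hm, ← sq]; exact h1⟩,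
      ⟨k % m, Nat.mod_lt _ hm⟩))
  else if h2 : k < 2 * m ^ 2 then
    .var (.inr (⟨(k - m ^ 2) / m, by rw [Nat.div_lt_iff_lt_mul hm, ← sq]; omega⟩,
      ⟨(k - m ^ 2) % m, Nat.mod_lt _ hm⟩))
  else if h3 : k < 2 * m ^ 2 + 1 then .const 0
  else if h4 : (k - (2 * m ^ 2 + 1)) % 2 = 0 then
    .mul ⟨(stp m k / m / m) % m * m + stp m k % m, by
        have e1 := Nat.mod_lt (stp m k / m / m) hm
        have e2 := Nat.mod_lt (stp m k) hm
        have e3 : (stp m k / m / m) % m * m + stp m k % m < m ^ 2 := by
          calc (stp m k / m / m) % m * m + stp m k % m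
              < (stp m k / m / m) % m * m + m := Nat.add_lt_add_left e2 _
            _ = ((stp m k / m / m) % m + 1) * m := by ring
            _ ≤ m * m := Nat.mul_le_mul_right _ e1
            _ = m ^ 2 := by ring
        omega⟩
      ⟨m ^ 2 + (stp m k % m * m + stp m k / m % m), by
        have e1 := Nat.mod_lt (stp m k / m) hm
        have e2 := Nat.mod_lt (stp m k) hm
        have e3 : stp m k % m * m + stp m k / m % m < m ^ 2 := by
          calc stp m k % m * m + stp m k / m % m
              < stp m k % m * m + m := Nat.add_lt_add_left e1 _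
            _ = (stp m k % m + 1) * m := by ring
            _ ≤ m * m := Nat.mul_le_mul_right _ e2
            _ = m ^ 2 := by ring
        omega⟩
  else
    .add ⟨k - 1, by omega⟩ ⟨if stp m k % m = 0 then 2 * m ^ 2 else k - 2, by split_ifs <;> omega⟩

/-- the direct algorithm on a line -/
def lineCircuit (hm : 0 < m) : Circuit F (Vars m) where
  nodes := 2 * m ^ 2 + 1 + 2 * m ^ 3
  gate := fun k => lineGate F m hm k

variable {F m}

theorem line_var_a (hm : 0 < m) (i l : Fin m) (k : Fin (lineCircuit F m hm).nodes)
    (hk : k.val = i * m + l) :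
    (lineCircuit F m hm).poly k = MvPolynomial.X (Sum.inl (i, l)) := by
  have h1 : (i : ℕ) * m + l < m ^ 2 := by
    calc (i : ℕ) * m + l < i * m + m := Nat.add_lt_add_left l.2 _
      _ = (i + 1) * m := by ring
      _ ≤ m * m := Nat.mul_le_mul_right _ i.2
      _ = _ := by ring
  have e1 : (k.val / m) = i := by
    rw [hk, mul_comm, Nat.mul_add_div hm, Nat.div_eq_of_lt l.2, add_zero]
  have e2 : (k.val % m) = l := by
    rw [hk, mul_comm, Nat.mul_add_mod, Nat.mod_eq_of_lt l.2]
  have hg : (lineCircuit F m hm).gate k = Gate.var (Sum.inl (i, l)) := by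
    show lineGate F m hm k = _
    unfold lineGate
    rw [dif_pos (by rw [hk]; exact h1)]
    congr 3
    · exact Fin.ext e1
    · exact Fin.ext e2
  rw [poly, hg]

theorem line_var_b (hm : 0 < m) (l j : Fin m) (k : Fin (lineCircuit F m hm).nodes)
    (hk : k.val = m ^ 2 + (l * m + j)) :
    (lineCircuit F m hm).poly k = MvPolynomial.X (Sum.inr (l, j)) := by
  have h1 : (l : ℕ) * m + j < m ^ 2 := by
    calc (l : ℕ) * m + j < l * m + m := Nat.add_lt_add_left j.2 _
      _ = (l + 1) * m := by ring
      _ ≤ m * m := Nat.mul_le_mul_right _ l.2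
      _ = _ := by ring
  have e0 : k.val - m ^ 2 = l * m + j := by omega
  have e1 : ((k.val - m ^ 2) / m) = l := by
    rw [e0, mul_comm, Nat.mul_add_div hm, Nat.div_eq_of_lt j.2, add_zero]
  have e2 : ((k.val - m ^ 2) % m) = j := by
    rw [e0, mul_comm, Nat.mul_add_mod, Nat.mod_eq_of_lt j.2]
  have hg : (lineCircuit F m hm).gate k = Gate.var (Sum.inr (l, j)) := by
    show lineGate F m hm k = _
    unfold lineGate
    rw [dif_neg (by omega), dif_pos (by omega)]
    congr 3
    · exact Fin.ext e1
    · exact Fin.ext e2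
  rw [poly, hg]

theorem line_zero (hm : 0 < m) (k : Fin (lineCircuit F m hm).nodes) (hk : k.val = 2 * m ^ 2) :
    (lineCircuit F m hm).poly k = 0 := by
  have hg : (lineCircuit F m hm).gate k = Gate.const 0 := by
    show lineGate F m hm k = _
    unfold lineGate
    rw [dif_neg (by omega), dif_neg (by omega), dif_pos (by omega)]
  rw [poly, hg]
  simp

/-- the number of the step for the entry `(i, j)` and the summand `l` -/
def stepNo (m : ℕ) (i j l : ℕ) : ℕ := (i * m + j) * m + l

theorem stepNo_lt (i j l : Fin m) : stepNo m i j l < m ^ 3 := by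
  unfold stepNo
  have h1 : (i : ℕ) * m + j < m * m := by
    calc (i : ℕ) * m + j < i * m + m := Nat.add_lt_add_left j.2 _
      _ = (i + 1) * m := by ring
      _ ≤ m * m := Nat.mul_le_mul_right _ i.2
  calc ((i : ℕ) * m + j) * m + l < (i * m + j) * m + m := Nat.add_lt_add_left l.2 _
    _ = (i * m + j + 1) * m := by ring
    _ ≤ (m * m) * m := Nat.mul_le_mul_right _ h1
    _ = m ^ 3 := by ring

theorem line_mul (hm : 0 < m) (i j l : Fin m) (k : Fin (lineCircuit F m hm).nodes)
    (hk : k.val = 2 * m ^ 2 + 1 + 2 * stepNo m i j l) :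
    (lineCircuit F m hm).poly k =
      MvPolynomial.X (Sum.inl (i, l)) * MvPolynomial.X (Sum.inr (l, j)) := by
  have hs : stp m k.val = stepNo m i j l := by
    unfold stp
    omega
  have e1 : stepNo m i j l % m = l := by
    unfold stepNo
    rw [mul_comm, Nat.mul_add_mod, Nat.mod_eq_of_lt l.2]
  have e2 : stepNo m i j l / m = i * m + j := by
    unfold stepNo
    rw [mul_comm, Nat.mul_add_div hm, Nat.div_eq_of_lt l.2, add_zero]
  have e3 : ((i : ℕ) * m + j) / m = i := by
    rw [mul_comm, Nat.mul_add_div hm, Nat.div_eq_of_lt j.2, add_zero]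
  have e4 : ((i : ℕ) * m + j) % m = j := by
    rw [mul_comm, Nat.mul_add_mod, Nat.mod_eq_of_lt j.2]
  obtain ⟨x, y, hx, hy, hg⟩ : ∃ x y : Fin k.val, x.val = i * m + l ∧ y.val = m ^ 2 + (l * m + j) ∧
      (lineCircuit F m hm).gate k = Gate.mul x y := by
    refine ⟨⟨(stp m k / m / m) % m * m + stp m k % m, ?_⟩,
      ⟨m ^ 2 + (stp m k % m * m + stp m k / m % m), ?_⟩, ?_, ?_, ?_⟩
    · rw [hs, e1, e2, e3, Nat.mod_eq_of_lt i.2, hk]
      have h1 : (i : ℕ) * m + l < m ^ 2 := by
        calc (i : ℕ) * m + l < i * m + m := Nat.add_lt_add_left l.2 _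
          _ = (i + 1) * m := by ring
          _ ≤ m * m := Nat.mul_le_mul_right _ i.2
          _ = _ := by ring
      omega
    · rw [hs, e1, e2, e4, hk]
      have h1 : (l : ℕ) * m + j < m ^ 2 := by
        calc (l : ℕ) * m + j < l * m + m := Nat.add_lt_add_left j.2 _
          _ = (l + 1) * m := by ring
          _ ≤ m * m := Nat.mul_le_mul_right _ l.2
          _ = _ := by ring
      omega
    · simp only
      rw [hs, e1, e2, e3, Nat.mod_eq_of_lt i.2]
    · simp only
      rw [hs, e1, e2, e4]
    · show lineGate F m hm k = _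
      unfold lineGate
      rw [dif_neg (by omega), dif_neg (by omega), dif_neg (by omega), dif_pos (by omega)]
  rw [poly, hg]
  simp only
  rw [line_var_a hm i l _ (by simpa [up] using hx), line_var_b hm l j _ (by simpa [up] using hy)]

theorem line_add (hm : 0 < m) (i j : Fin m) : ∀ (l : ℕ) (hl : l < m)
    (k : Fin (lineCircuit F m hm).nodes), k.val = 2 * m ^ 2 + 1 + 2 * stepNo m i j l + 1 →
    (lineCircuit F m hm).poly k = ∑ l' : Fin (l + 1),
      MvPolynomial.X (Sum.inl (i, ⟨l', by omega⟩)) * MvPolynomial.X (Sum.inr (⟨l', by omega⟩, j))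
  | l, hl, k, hk => by
    have hs : stp m k.val = stepNo m i j l := by
      unfold stp
      omega
    have e1 : stepNo m i j l % m = l := by
      unfold stepNo
      rw [mul_comm, Nat.mul_add_mod, Nat.mod_eq_of_lt hl]
    obtain ⟨x, y, hx, hy, hg⟩ : ∃ x y : Fin k.val, x.val = k.val - 1 ∧
        y.val = (if l = 0 then 2 * m ^ 2 else k.val - 2) ∧
        (lineCircuit F m hm).gate k = Gate.add x y := by
      refine ⟨⟨k.val - 1, by omega⟩,
        ⟨if stp m k % m = 0 then 2 * m ^ 2 else k.val - 2, by split_ifs <;> omega⟩, rfl, ?_, ?_⟩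
      · simp only
        rw [hs, e1]
      · show lineGate F m hm k = _
        unfold lineGate
        rw [dif_neg (by omega), dif_neg (by omega), dif_neg (by omega), dif_neg (by omega)]
    rw [poly, hg]
    simp only
    rw [line_mul hm i j ⟨l, hl⟩ _ (by simp [up, hx, hk])]
    rw [Fin.sum_univ_castSucc, add_comm]
    congr 1
    cases l with
    | zero =>
      rw [line_zero hm _ (by simpa [up] using hy)]
      simp
    | succ l =>
      rw [line_add hm i j l (by omega) _ (by
        have h1 : ((lineCircuit F m hm).up k y).val = y.val := rfl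
        rw [h1, hy, if_neg (Nat.succ_ne_zero l), hk]
        unfold stepNo
        omega)]
      rfl

theorem line_computes (hm : 0 < m) (i j : Fin m) :
    ∃ k, (lineCircuit F m hm).poly k = entry F m i j := by
  have h1 : 2 * m ^ 2 + 1 + 2 * stepNo m i j (m - 1) + 1 < (lineCircuit F m hm).nodes := by
    show _ < 2 * m ^ 2 + 1 + 2 * m ^ 3
    have := stepNo_lt i j ⟨m - 1, by omega⟩
    simp only at this
    omega
  refine ⟨⟨_, h1⟩, ?_⟩
  rw [line_add hm i j (m - 1) (by omega) _ rfl, entry]
  obtain ⟨n, rfl⟩ : ∃ n, m = n + 1 := ⟨m - 1, by omega⟩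
  rfl

theorem line_isGate (hm : 0 < m) (k : Fin (lineCircuit F m hm).nodes)
    (hk : IsGate (lineCircuit F m hm) k) : 2 * m ^ 2 + 1 ≤ k.val := by
  by_contra hcon
  push Not at hcon
  obtain ⟨i, j, h⟩ := hk
  have hg : (lineCircuit F m hm).gate k = lineGate F m hm k := rfl
  rw [hg] at h
  unfold lineGate at h
  split_ifs at h <;> simp at h

theorem line_feeds (hm : 0 < m) (h g : Fin (lineCircuit F m hm).nodes)
    (hh : 2 * m ^ 2 + 1 ≤ h.val) (hf : Feeds (lineCircuit F m hm) h g) :
    h.val + 1 = g.val ∨ h.val + 2 = g.val := by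
  obtain ⟨i, j, h1, h2⟩ := hf
  have hg : (lineCircuit F m hm).gate g = lineGate F m hm g := rfl
  rw [hg] at h1
  unfold lineGate at h1
  have hi : ((lineCircuit F m hm).up g i).val = i.val := rfl
  have hj : ((lineCircuit F m hm).up g j).val = j.val := rfl
  split_ifs at h1 with a1 a2 a3 a4
  · simp at h1
  · simp at h1
  · simp at h1
  · simp only [Gate.mul.injEq, reduceCtorEq, false_or] at h1
    obtain ⟨b1, b2⟩ := h1
    have e1 := Nat.mod_lt (stp m g / m / m) hm
    have e2 := Nat.mod_lt (stp m g) hm
    have e3 := Nat.mod_lt (stp m g / m) hm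
    have c1 : i.val < m ^ 2 := by
      rw [← b1]
      calc (stp m g / m / m) % m * m + stp m g % m
          < (stp m g / m / m) % m * m + m := Nat.add_lt_add_left e2 _
        _ = ((stp m g / m / m) % m + 1) * m := by ring
        _ ≤ m * m := Nat.mul_le_mul_right _ e1
        _ = m ^ 2 := by ring
    have c2 : j.val < m ^ 2 + m ^ 2 := by
      rw [← b2]
      apply Nat.add_lt_add_left
      calc stp m g % m * m + stp m g / m % m
          < stp m g % m * m + m := Nat.add_lt_add_left e3 _
        _ = (stp m g % m + 1) * m := by ring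
        _ ≤ m * m := Nat.mul_le_mul_right _ e2
        _ = m ^ 2 := by ring
    rcases h2 with h2 | h2
    · rw [← h2, hi] at hh
      omega
    · rw [← h2, hj] at hh
      omega
  · simp only [Gate.add.injEq, reduceCtorEq, or_false] at h1
    obtain ⟨b1, b2⟩ := h1
    rcases h2 with h2 | h2
    · left
      rw [← h2, hi, ← b1]
      simp only
      omega
    · exfalso
      rw [← h2, hj, ← b2] at hh
      simp only at hh
      omega
  · simp only [Gate.add.injEq, reduceCtorEq, or_false] at h1
    obtain ⟨b1, b2⟩ := h1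
    rcases h2 with h2 | h2
    · left
      rw [← h2, hi, ← b1]
      simp only
      omega
    · right
      rw [← h2, hj, ← b2]
      simp only
      omega

/-- **The direct algorithm on a line**, in a space of any dimension `d ≥ 1`. -/
theorem exists_line (F : Type) [Field F] (m d : ℕ) (hd : 1 ≤ d) :
    ∃ (C : Circuit F (Vars m)) (pos : {k : Fin C.nodes // IsGate C k} → Fin d → ℤ),
      (∀ i j, ∃ k, C.poly k = entry F m i j) ∧ Function.Injective pos ∧
      C.size + wireLength C pos ≤ 10 * m ^ 3 := by
  classical
  rcases Nat.eq_zero_or_pos m with rfl | hm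
  · refine ⟨⟨0, fun k => k.elim0⟩, fun k => k.1.elim0, fun i => i.elim0, fun k => k.1.elim0, ?_⟩
    have h1 : IsEmpty {k : Fin (⟨0, fun k => k.elim0⟩ : Circuit F (Vars 0)).nodes //
        IsGate (⟨0, fun k => k.elim0⟩ : Circuit F (Vars 0)) k} := ⟨fun k => k.1.elim0⟩
    have h2 : (⟨0, fun k => k.elim0⟩ : Circuit F (Vars 0)).size = 0 := by
      rw [size_eq]
      exact Nat.card_of_isEmpty
    rw [h2]
    unfold wireLength
    simp
  · refine ⟨lineCircuit F m hm, fun g i => if i.val = 0 then ((g.1.val : ℕ) : ℤ) else 0,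
      line_computes hm, ?_, ?_⟩
    · intro g h hgh
      have h1 := congrFun hgh ⟨0, by omega⟩
      simp only [if_true, Nat.cast_inj] at h1
      exact Subtype.ext (Fin.ext h1)
    · have hs : (lineCircuit F m hm).size ≤ 2 * m ^ 3 := by
        rw [size_eq]
        have h1 := Nat.card_le_card_of_injective
          (fun g : {k : Fin (lineCircuit F m hm).nodes // IsGate (lineCircuit F m hm) k} =>
            (⟨g.1.val - (2 * m ^ 2 + 1), by
              have h2 : g.1.val < 2 * m ^ 2 + 1 + 2 * m ^ 3 := g.1.2
              have h3 := line_isGate hm g.1 g.2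
              omega⟩ : Fin (2 * m ^ 3))) (by
            intro g h hgh
            have h1 := congrArg Fin.val hgh
            simp only at h1
            have h3 := line_isGate hm g.1 g.2
            have h4 := line_isGate hm h.1 h.2
            exact Subtype.ext (Fin.ext (by omega)))
        rw [Nat.card_eq_fintype_card, Nat.card_eq_fintype_card, Fintype.card_fin] at h1
        rw [Nat.card_eq_fintype_card]
        exact h1
      have hw := wireLength_le (lineCircuit F m hm)
        (fun g (i : Fin d) => if i.val = 0 then ((g.1.val : ℕ) : ℤ) else 0) 2 (by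
          intro h g hf
          have h1 := line_feeds hm h.1 g.1 (line_isGate hm h.1 h.2) hf
          rw [sum_eq_single (⟨0, by omega⟩ : Fin d)]
          · simp only [if_true]
            omega
          · intro i _ hi
            have : i.val ≠ 0 := fun h0 => hi (Fin.ext h0)
            simp [this]
          · intro h0
            exact absurd (mem_univ _) h0)
      nlinarith

end line

end Pool.Agent.U514.MM
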