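import Mathlib
import Pool.Agent.U514.MM.WireUp
import Pool.Agent.N590.MS.Fin

/-!
# The exponents of matrix multiplication in the `d`-dimensional space
-/

set_option autoImplicit false

namespace Pool.Agent.U514.MM

open Finset Filter Topology
open Pool.Agent.H522R2 Pool.Agent.H522R2.Circuit Pool.Agent.H522R3.TW
open Pool.Agent.W956.KF (growth omega sizeMM trank exists_circuit_MM sizeMM_upper omega_eq)

/-- The least number of gates plus total length of the wires of a circuit in `ℤ ^ d` for the product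
of two `m × m` matrices, with at most one gate at each point. -/
noncomputable def costMM (F : Type) [Field F] (d m : ℕ) : ℕ :=
  sInf {c | ∃ (C : Circuit F (Vars m)) (pos : {k : Fin C.nodes // IsGate C k} → Fin d → ℤ),
    (∀ i j, ∃ k, C.poly k = entry F m i j) ∧ Function.Injective pos ∧
      C.size + wireLength C pos = c}

/-- The exponent of matrix multiplication in the `d`-dimensional space. -/
noncomputable def spaceExp (F : Type) [Field F] (d : ℕ) : ℝ := growth (costMM F d)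

variable (F : Type) [Field F]

theorem costMM_spec (d m : ℕ) (hd : 1 ≤ d) :
    ∃ (C : Circuit F (Vars m)) (pos : {k : Fin C.nodes // IsGate C k} → Fin d → ℤ),
    (∀ i j, ∃ k, C.poly k = entry F m i j) ∧ Function.Injective pos ∧
      C.size + wireLength C pos = costMM F d m := by
  obtain ⟨C, pos, h1, h2, -⟩ := exists_line F m d hd
  exact Nat.sInf_mem (s := {c | ∃ (C : Circuit F (Vars m))
    (pos : {k : Fin C.nodes // IsGate C k} → Fin d → ℤ),
    (∀ i j, ∃ k, C.poly k = entry F m i j) ∧ Function.Injective pos ∧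
      C.size + wireLength C pos = c}) ⟨_, C, pos, h1, h2, rfl⟩

theorem costMM_le_cube (d m : ℕ) (hd : 1 ≤ d) : costMM F d m ≤ 10 * m ^ 3 := by
  obtain ⟨C, pos, h1, h2, h3⟩ := exists_line F m d hd
  exact (Nat.sInf_le ⟨C, pos, h1, h2, rfl⟩ : costMM F d m ≤ C.size + wireLength C pos).trans h3

theorem costMM_lower (d m : ℕ) (hd : 1 ≤ d) :
    (1 / 16 : ℝ) * (m : ℝ) ^ (2 + 2 / ((d : ℝ) + 1)) ≤ costMM F d m := by
  obtain ⟨C, pos, h1, h2, h3⟩ := costMM_spec F d m hd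
  have h4 := wire_real C h1 pos h2 hd
  rw [h3] at h4
  linarith

theorem sizeMM_le_costMM (d m : ℕ) (hd : 1 ≤ d) : sizeMM F m ≤ costMM F d m := by
  obtain ⟨C, pos, h1, h2, h3⟩ := costMM_spec F d m hd
  rw [← h3]
  refine le_trans (Nat.sInf_le ?_) (Nat.le_add_right C.size _)
  exact ⟨C, h1, rfl⟩

theorem costMM_le_size (d m : ℕ) (hd : 1 ≤ d) :
    (costMM F d m : ℝ) ≤ (4 * d + 1) * (sizeMM F m : ℝ) ^ (1 + 1 / (d : ℝ)) := by
  obtain ⟨C, h1, h2⟩ := exists_circuit_MM F m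
  have hd0 : (0 : ℝ) < d := by exact_mod_cast hd
  obtain ⟨s, hs⟩ : ∃ s : ℝ, s = (sizeMM F m : ℝ) := ⟨_, rfl⟩
  have hsC : (C.size : ℝ) = s := by rw [hs, h2]
  have hs0 : 0 ≤ s := by rw [hs]; positivity
  obtain ⟨K, hK⟩ : ∃ K, K = ⌈s ^ (1 / (d : ℝ))⌉₊ := ⟨_, rfl⟩
  have hK1 : s ^ (1 / (d : ℝ)) ≤ K := by rw [hK]; exact Nat.le_ceil _
  have hK2 : C.size ≤ K ^ d := by
    have h3 : (C.size : ℝ) ≤ (K : ℝ) ^ d := by
      rw [hsC]
      calc s = (s ^ (1 / (d : ℝ))) ^ d := by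
            rw [← Real.rpow_natCast (s ^ (1 / (d : ℝ))) d, ← Real.rpow_mul hs0]
            rw [one_div_mul_cancel hd0.ne', Real.rpow_one]
        _ ≤ (K : ℝ) ^ d := pow_le_pow_left₀ (by positivity) hK1 d
    exact_mod_cast h3
  obtain ⟨pos, h3, h4⟩ := exists_cube C K hK2
  have h5 : costMM F d m ≤ C.size + wireLength C pos := Nat.sInf_le ⟨C, pos, h1, h3, rfl⟩
  have h6 : (costMM F d m : ℝ) ≤ s + 2 * s * (d * K) := by
    have h7 : costMM F d m ≤ C.size + 2 * C.size * (d * K) := by omega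
    rw [← hsC]
    exact_mod_cast h7
  rw [← hs]
  rcases Nat.eq_zero_or_pos (sizeMM F m) with h0 | h0
  · have : s = 0 := by rw [hs, h0]; simp
    rw [this] at h6 ⊢
    rw [Real.zero_rpow (by positivity)]
    simpa using h6
  · have hs1 : 1 ≤ s := by rw [hs]; exact_mod_cast h0
    have h7 : 1 ≤ s ^ (1 / (d : ℝ)) := Real.one_le_rpow hs1 (by positivity)
    have h8 : (K : ℝ) ≤ 2 * s ^ (1 / (d : ℝ)) := by
      have := Nat.ceil_lt_add_one (a := s ^ (1 / (d : ℝ))) (by positivity)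
      rw [← hK] at this
      linarith
    have h9 : s ^ (1 + 1 / (d : ℝ)) = s * s ^ (1 / (d : ℝ)) := by
      rw [Real.rpow_add (by linarith), Real.rpow_one]
    rw [h9]
    calc (costMM F d m : ℝ) ≤ s + 2 * s * (d * K) := h6
      _ ≤ s * s ^ (1 / (d : ℝ)) + 2 * s * (d * (2 * s ^ (1 / (d : ℝ)))) := by
          apply add_le_add
          · nlinarith
          · gcongr
      _ = _ := by ring

/-! ### Growth exponents -/

theorem exp_le {α τ c D : ℝ} (hc : 0 < c)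
    (h : ∀ m : ℕ, c * (m : ℝ) ^ α ≤ D * (m : ℝ) ^ τ) : α ≤ τ := by
  by_contra hcon
  push Not at hcon
  have h1 : Tendsto (fun m : ℕ => (m : ℝ) ^ (α - τ)) atTop atTop :=
    (tendsto_rpow_atTop (by linarith)).comp tendsto_natCast_atTop_atTop
  obtain ⟨m, hm1, hm2⟩ := ((h1.eventually_gt_atTop (D / c)).and (eventually_ge_atTop 1)).exists
  have hm0 : (0 : ℝ) < m := by exact_mod_cast hm2
  have h2 := h m
  rw [Real.rpow_sub hm0, lt_div_iff₀ (Real.rpow_pos_of_pos hm0 _), div_mul_eq_mul_div,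
    div_lt_iff₀ hc] at hm1
  linarith

theorem le_growth {f : ℕ → ℕ} {α c : ℝ} (hc : 0 < c) (h : ∀ m : ℕ, c * (m : ℝ) ^ α ≤ f m)
    (hne : {τ : ℝ | ∃ D : ℝ, ∀ m : ℕ, (f m : ℝ) ≤ D * (m : ℝ) ^ τ}.Nonempty) :
    α ≤ growth f :=
  le_csInf hne fun _ ⟨_, hD⟩ => exp_le hc fun m => (h m).trans (hD m)

theorem growth_le {f : ℕ → ℕ} {α c τ D : ℝ} (hc : 0 < c) (h : ∀ m : ℕ, c * (m : ℝ) ^ α ≤ f m)
    (hD : ∀ m : ℕ, (f m : ℝ) ≤ D * (m : ℝ) ^ τ) : growth f ≤ τ :=
  csInf_le ⟨α, fun _ ⟨_, hD'⟩ => exp_le hc fun m => (h m).trans (hD' m)⟩ ⟨D, hD⟩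

theorem cost_nonempty (d : ℕ) (hd : 1 ≤ d) :
    ∀ m : ℕ, (costMM F d m : ℝ) ≤ 10 * (m : ℝ) ^ (3 : ℝ) := by
  intro m
  have h1 : ((costMM F d m : ℕ) : ℝ) ≤ ((10 * m ^ 3 : ℕ) : ℝ) := by
    exact_mod_cast costMM_le_cube F d m hd
  refine h1.trans (le_of_eq ?_)
  push_cast
  norm_cast

theorem sizeMM_lower (m : ℕ) : (1 : ℝ) * (m : ℝ) ^ (2 : ℝ) ≤ sizeMM F m := by
  obtain ⟨C, h1, h2⟩ := exists_circuit_MM F m
  have h3 := size_ge C h1
  rw [h2] at h3
  rw [one_mul]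
  have h4 : ((m ^ 2 : ℕ) : ℝ) ≤ sizeMM F m := by exact_mod_cast h3
  refine le_trans (le_of_eq ?_) h4
  push_cast
  norm_cast

theorem space_lower (d : ℕ) (hd : 1 ≤ d) : 2 + 2 / ((d : ℝ) + 1) ≤ spaceExp F d :=
  le_growth (by norm_num) (fun m => costMM_lower F d m hd) ⟨3, 10, cost_nonempty F d hd⟩

theorem space_le_three (d : ℕ) (hd : 1 ≤ d) : spaceExp F d ≤ 3 :=
  growth_le (by norm_num) (fun m => costMM_lower F d m hd) (cost_nonempty F d hd)

theorem omega_eq_size : growth (sizeMM F) = omega F := (Pool.Agent.N590.MS.sums_part F).2.1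

theorem omega_le_space (d : ℕ) (hd : 1 ≤ d) : omega F ≤ spaceExp F d := by
  rw [← omega_eq_size]
  refine csInf_le_csInf ?_ ⟨3, 10, cost_nonempty F d hd⟩ ?_
  · exact ⟨2, fun _ ⟨_, hD'⟩ => exp_le one_pos fun m => (sizeMM_lower F m).trans (hD' m)⟩
  · rintro τ ⟨D, hD⟩
    exact ⟨D, fun m => le_trans (by exact_mod_cast sizeMM_le_costMM F d m hd) (hD m)⟩

theorem two_le_omega : 2 ≤ omega F := by
  rw [← omega_eq_size]
  refine le_growth one_pos (sizeMM_lower F) ⟨3, 10, fun m => ?_⟩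
  exact le_trans (by exact_mod_cast sizeMM_le_costMM F 1 m le_rfl) (cost_nonempty F 1 le_rfl m)

theorem space_le_omega (d : ℕ) (hd : 1 ≤ d) : spaceExp F d ≤ (1 + 1 / (d : ℝ)) * omega F := by
  have hd0 : (0 : ℝ) < d := by exact_mod_cast hd
  have hq : (0 : ℝ) < 1 + 1 / (d : ℝ) := by positivity
  refine le_of_forall_gt_imp_ge_of_dense fun τ hτ => ?_
  have h1 : omega F < τ / (1 + 1 / (d : ℝ)) := by
    rw [lt_div_iff₀ hq, mul_comm]
    exact hτ
  rw [omega_eq] at h1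
  obtain ⟨D, hD⟩ := sizeMM_upper h1
  have hD0 : 0 ≤ D := by
    have := hD 1
    rw [Nat.cast_one, Real.one_rpow, mul_one] at this
    exact le_trans (Nat.cast_nonneg _) this
  refine growth_le (D := (4 * d + 1) * D ^ (1 + 1 / (d : ℝ))) (by norm_num)
    (fun m => costMM_lower F d m hd) fun m => ?_
  refine (costMM_le_size F d m hd).trans ?_
  rw [mul_assoc]
  apply mul_le_mul_of_nonneg_left _ (by positivity)
  calc (sizeMM F m : ℝ) ^ (1 + 1 / (d : ℝ))
      ≤ (D * (m : ℝ) ^ (τ / (1 + 1 / (d : ℝ)))) ^ (1 + 1 / (d : ℝ)) :=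
        Real.rpow_le_rpow (Nat.cast_nonneg _) (hD m) hq.le
    _ = D ^ (1 + 1 / (d : ℝ)) * (m : ℝ) ^ τ := by
        rw [Real.mul_rpow hD0 (by positivity), ← Real.rpow_mul (Nat.cast_nonneg _),
          div_mul_cancel₀ _ hq.ne']

/-- **The exponents of matrix multiplication in the `d`-dimensional space.** -/
theorem space_exponents :
    (∀ d : ℕ, 1 ≤ d → max (omega F) (2 + 2 / ((d : ℝ) + 1)) ≤ spaceExp F d ∧
      spaceExp F d ≤ min 3 ((1 + 1 / (d : ℝ)) * omega F)) ∧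
    spaceExp F 1 = 3 ∧ Tendsto (spaceExp F) atTop (𝓝 (omega F)) ∧
    (omega F = 2 ↔ ∀ ε : ℝ, 0 < ε → ∃ d : ℕ, 1 ≤ d ∧ spaceExp F d ≤ 2 + ε) := by
  have h1 : ∀ d : ℕ, 1 ≤ d → max (omega F) (2 + 2 / ((d : ℝ) + 1)) ≤ spaceExp F d ∧
      spaceExp F d ≤ min 3 ((1 + 1 / (d : ℝ)) * omega F) := fun d hd =>
    ⟨max_le (omega_le_space F d hd) (space_lower F d hd),
      le_min (space_le_three F d hd) (space_le_omega F d hd)⟩
  have hlim : Tendsto (spaceExp F) atTop (𝓝 (omega F)) := by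
    have h2 : Tendsto (fun d : ℕ => (1 + 1 / (d : ℝ)) * omega F) atTop (𝓝 ((1 + 0) * omega F)) :=
      (tendsto_const_nhds.add tendsto_one_div_atTop_nhds_zero_nat).mul tendsto_const_nhds
    rw [add_zero, one_mul] at h2
    refine tendsto_of_tendsto_of_tendsto_of_le_of_le' tendsto_const_nhds h2 ?_ ?_
    · filter_upwards [eventually_ge_atTop 1] with d hd
      exact omega_le_space F d hd
    · filter_upwards [eventually_ge_atTop 1] with d hd
      exact space_le_omega F d hd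
  refine ⟨h1, ?_, hlim, ?_⟩
  · apply le_antisymm (space_le_three F 1 le_rfl)
    have := space_lower F 1 le_rfl
    norm_num at this
    exact this
  · constructor
    · intro h ε hε
      obtain ⟨d, hd1, hd2⟩ := ((hlim.eventually_le_const (show omega F < 2 + ε by linarith)).and
        (eventually_ge_atTop 1)).exists
      exact ⟨d, hd2, hd1⟩
    · intro h
      apply le_antisymm _ (two_le_omega F)
      refine le_of_forall_pos_le_add fun ε hε => ?_
      obtain ⟨d, hd, h3⟩ := h ε hε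
      exact (omega_le_space F d hd).trans h3

end Pool.Agent.U514.MM
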